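import Pool.Agent.Run7.h428.NF.Plc
import Pool.Agent.H82R3.EK.Euler

/-!
# The twists by the numbers `tn n T`, and their coefficients
-/

set_option autoImplicit false

namespace Run7.h428.NF

open NumberField
open Pool.Agent.H82R3.EK (prime_cpow)
open Pool.Agent.W97.MT (ap)
open Pool.Agent.Y682.XF (kr)
open Run7.h555.P15 (WT ap_twist)
open Pool.Agent.Run7.h741.MF (E15)
open scoped symmDiff

theorem prod_sd (X Z : Finset ℕ) : (∏ p ∈ X ∆ Z, p) * (∏ p ∈ X ∩ Z, p) ^ 2 =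
    (∏ p ∈ X, p) * ∏ p ∈ Z, p := by
  have e1 : ∏ p ∈ X, p = (∏ p ∈ X \ Z, p) * ∏ p ∈ X ∩ Z, p := by
    rw [← Finset.prod_union (Finset.disjoint_sdiff_inter X Z), Finset.sdiff_union_inter]
  have e2 : ∏ p ∈ Z, p = (∏ p ∈ Z \ X, p) * ∏ p ∈ X ∩ Z, p := by
    rw [Finset.inter_comm, ← Finset.prod_union (Finset.disjoint_sdiff_inter Z X),
      Finset.sdiff_union_inter]
  have e3 : ∏ p ∈ X ∆ Z, p = (∏ p ∈ X \ Z, p) * ∏ p ∈ Z \ X, p := by
    have h4 : X ∆ Z = (X \ Z) ∪ (Z \ X) := rfl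
    rw [h4, Finset.prod_union disjoint_sdiff_sdiff]
  rw [e1, e2, e3]
  ring

theorem sq60 {k : ℕ} (h : Nat.Coprime k 60) : k ^ 2 % 60 = 1 ∨ k ^ 2 % 60 = 49 := by
  have key : ∀ a < 60, Nat.Coprime a 60 → a ^ 2 % 60 = 1 ∨ a ^ 2 % 60 = 49 := by decide
  rw [Nat.pow_mod]
  refine key _ (Nat.mod_lt _ (by norm_num)) ?_
  unfold Nat.Coprime at h ⊢
  rw [← h, ← Nat.gcd_rec, Nat.gcd_comm]

theorem cop60 {k : ℕ} (h : k % 60 = 1 ∨ k % 60 = 49 ∨ k % 60 = 23 ∨ k % 60 = 47) :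
    Nat.Coprime k 60 := by
  unfold Nat.Coprime
  rw [Nat.gcd_comm, Nat.gcd_rec]
  rcases h with h | h | h | h <;> rw [h] <;> norm_num

theorem odd_of_mod {n : ℕ} (h60 : n % 60 = 23 ∨ n % 60 = 47) : n % 4 = 3 := by omega

variable {n : ℕ} {T T0 : Finset ℕ}

theorem tn_pr (hT : ∀ l ∈ T, l.Prime) : ∀ p ∈ n.primeFactors ∆ T, p.Prime := by
  intro p hp
  rcases Finset.mem_symmDiff.1 hp with h | h
  · exact Nat.prime_of_mem_primeFactors h.1
  · exact hT p h.1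

theorem tn_eq (hn : Squarefree n) : tn n T * (∏ p ∈ n.primeFactors ∩ T, p) ^ 2 =
    n * ∏ l ∈ T, l := by
  unfold tn
  rw [prod_sd, Nat.prod_primeFactors_of_squarefree hn]

theorem tn_pos (hT : ∀ l ∈ T, l.Prime) : 0 < tn n T :=
  Finset.prod_pos fun p hp => (tn_pr hT p hp).pos

theorem tn_sqf (hT : ∀ l ∈ T, l.Prime) : Squarefree (tn n T) := by
  unfold tn
  refine Finset.squarefree_prod_of_pairwise_isCoprime (fun a ha b hb hab => ?_)
    fun l hl => (tn_pr hT l hl).squarefree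
  exact Nat.coprime_iff_isRelPrime.1 ((Nat.coprime_primes (tn_pr hT a ha) (tn_pr hT b hb)).2 hab)

theorem tn_pf (hT : ∀ l ∈ T, l.Prime) : (tn n T).primeFactors = n.primeFactors ∆ T :=
  Nat.primeFactors_prod fun l hl => tn_pr hT l hl

theorem dvd_tn (hT : ∀ l ∈ T, l.Prime) {q : ℕ} (hq : q.Prime) :
    q ∣ tn n T ↔ q ∈ n.primeFactors ∆ T := by
  constructor
  · intro h
    by_contra hcon
    exact not_dvd (tn_pr hT) hq hcon h
  · intro h
    exact Finset.dvd_prod_of_mem (fun p : ℕ => p) h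

theorem tn_mod (hn : Squarefree n) (h60 : n % 60 = 23 ∨ n % 60 = 47) (_ : ∀ l ∈ T, l.Prime)
    (hm : (∏ l ∈ T, l) % 60 = 1 ∨ (∏ l ∈ T, l) % 60 = 49) :
    tn n T % 60 = 23 ∨ tn n T % 60 = 47 := by
  have h1 := tn_eq (T := T) hn
  set g := ∏ p ∈ n.primeFactors ∩ T, p with hg
  have hgn : g ∣ n := by
    rw [← Nat.prod_primeFactors_of_squarefree hn, hg]
    exact Finset.prod_dvd_prod_of_subset _ _ _ Finset.inter_subset_left
  have hgc : Nat.Coprime g 60 := Nat.Coprime.coprime_dvd_left hgn (cop60 (by tauto))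
  have h2 := sq60 hgc
  have key : ∀ a < 60, ∀ b ∈ [1, 49], ∀ c ∈ [23, 47], ∀ d ∈ [1, 49],
      a * b % 60 = c * d % 60 → a = 23 ∨ a = 47 := by decide
  have h3 : tn n T * g ^ 2 % 60 = n * (∏ l ∈ T, l) % 60 := by rw [h1]
  rw [Nat.mul_mod, Nat.mul_mod n] at h3
  refine key _ (Nat.mod_lt _ (by norm_num)) (g ^ 2 % 60) ?_ (n % 60) ?_ ((∏ l ∈ T, l) % 60) ?_ h3
  · simpa using h2
  · simpa using h60
  · simpa using hm

theorem kr_zero {D : ℤ} (hD : D % 4 = 1) {q : ℕ} (hq : q.Prime) (hd : (q : ℤ) ∣ D) :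
    kr D q = 0 := by
  have hq2 : q ≠ 2 := by
    rintro rfl
    push_cast at hd
    omega
  unfold kr
  rw [if_neg hq2, jacobiSym.eq_zero_iff]
  refine ⟨hq.ne_zero, ?_⟩
  obtain ⟨c, rfl⟩ := hd
  have h1 : (q : ℕ) ∣ Int.gcd ((q : ℤ) * c) (q : ℤ) :=
    Nat.dvd_gcd (by rw [Int.natAbs_mul, Int.natAbs_natCast]; exact dvd_mul_right _ _)
      (by rw [Int.natAbs_natCast])
  intro h2
  rw [h2] at h1
  exact hq.one_lt.ne' (Nat.dvd_one.1 h1)

theorem kr_eight {D D' : ℤ} (h : D % 8 = D' % 8) : kr D 2 = kr D' 2 := by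
  unfold kr
  rw [if_pos rfl, if_pos rfl, h]

/-- the symbols of the twists -/
theorem kr_rel (hn : n % 60 = 23 ∨ n % 60 = 47) (hns : Squarefree n) (hT : ∀ l ∈ T, l.Prime)
    (hm : (∏ l ∈ T, l) % 60 = 1 ∨ (∏ l ∈ T, l) % 60 = 49) (hT0 : ∀ l ∈ T0, l.Prime)
    (hm0 : (∏ l ∈ T0, l) % 60 = 1 ∨ (∏ l ∈ T0, l) % 60 = 49)
    (hZ : (∏ l ∈ T0 ∆ T, l) % 4 = 1) {q : ℕ} (hq : q.Prime) (h1 : q ∉ n.primeFactors ∆ T)
    (h0 : q ∉ n.primeFactors ∆ T0) :
    kr (-(tn n T : ℤ)) q = ch (T0 ∆ T) q * kr (-(tn n T0 : ℤ)) q ∧ q ∉ T0 ∆ T := by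
  set X := n.primeFactors ∆ T0 with hX
  set Z := T0 ∆ T with hZd
  have hXZ : X ∆ Z = n.primeFactors ∆ T := by
    rw [hX, hZd, symmDiff_assoc, symmDiff_symmDiff_cancel_left]
  have hqZ : q ∉ Z := by
    intro h
    apply h1
    rw [← hXZ, Finset.mem_symmDiff]
    exact Or.inr ⟨h, h0⟩
  have hZp : ∀ l ∈ Z, l.Prime := by
    intro l hl
    rcases Finset.mem_symmDiff.1 hl with h | h
    · exact hT0 l h.1
    · exact hT l h.1
  have e := prod_sd X Z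
  rw [hXZ] at e
  have eA : ∏ p ∈ n.primeFactors ∆ T, p = tn n T := rfl
  have eB : ∏ p ∈ X, p = tn n T0 := rfl
  rw [eA, eB] at e
  set g := ∏ p ∈ X ∩ Z, p with hg
  set M := ∏ l ∈ Z, l with hM
  have hqg : ¬ q ∣ g := not_dvd (fun l hl => hZp l (Finset.mem_inter.1 hl).2) hq
    fun h => h0 (Finset.mem_inter.1 h).1
  refine ⟨?_, hqZ⟩
  have hA := odd_of_mod (tn_mod hns hn hT hm)
  have hB := odd_of_mod (tn_mod hns hn hT0 hm0)
  have e' : (-(tn n T : ℤ)) * (g : ℤ) ^ 2 = (-(tn n T0 : ℤ)) * (M : ℤ) := by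
    have : ((tn n T * g ^ 2 : ℕ) : ℤ) = ((tn n T0 * M : ℕ) : ℤ) := by rw [e]
    push_cast at this
    linear_combination -this
  by_cases hq2 : q = 2
  · subst hq2
    have hg2 : g % 2 = 1 := by omega
    have hg8 : ((g : ℤ) ^ 2) % 8 = 1 := by
      have h3 : (g : ℤ) % 8 = 1 ∨ (g : ℤ) % 8 = 3 ∨ (g : ℤ) % 8 = 5 ∨ (g : ℤ) % 8 = 7 := by omega
      rcases h3 with h3 | h3 | h3 | h3 <;> rw [pow_two, Int.mul_emod, h3] <;> norm_num
    have hM8 : (M : ℤ) % 8 = 1 ∨ (M : ℤ) % 8 = 5 := by omega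
    have hc : ch Z 2 = if M % 8 = 1 then 1 else -1 := by
      unfold ch
      rw [← hM]
      push_cast
      rw [jacobiSym.at_two (by rw [Nat.odd_iff]; omega), ZMod.χ₈_nat_eq_if_mod_eight]
      by_cases h4 : M % 8 = 1
      · rw [if_neg (by omega), if_pos (Or.inl h4), if_pos h4]
      · rw [if_neg (by omega), if_neg (by omega), if_neg h4]
    have h5 : (-(tn n T : ℤ)) * (g : ℤ) ^ 2 % 8 = (-(tn n T0 : ℤ)) * (M : ℤ) % 8 := by rw [e']
    have fin : ∀ (a b : ℤ) (m : ℕ), (b = 1 ∨ b = 5) → (m = 1 ∨ m = 5) → a = b * m % 8 →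
        (if a = 1 then (1 : ℤ) else -1) =
          (if m = 1 then (1 : ℤ) else -1) * (if b = 1 then (1 : ℤ) else -1) := by
      intro a b m hb hm ha
      rcases hb with rfl | rfl <;> rcases hm with rfl | rfl <;> norm_num at ha <;> rw [ha] <;>
        norm_num
    rw [hc]
    unfold kr
    rw [if_pos rfl, if_pos rfl]
    refine fin _ _ (M % 8) (by omega) (by omega) ?_
    rw [Int.mul_emod, hg8, mul_one, Int.emod_emod_of_dvd _ dvd_rfl,
      Int.mul_emod (-(tn n T0 : ℤ))] at h5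
    rw [h5]
    push_cast
    rfl
  · have hodd : q % 2 = 1 := by
      rcases hq.eq_two_or_odd with h3 | h3
      · exact absurd h3 hq2
      · exact h3
    have hg1 : jacobiSym ((g : ℤ) ^ 2) q = 1 := by
      apply jacobiSym.sq_one'
      rw [Int.gcd_natCast_natCast]
      exact Nat.Coprime.symm ((Nat.Prime.coprime_iff_not_dvd hq).2 hqg)
    have hrec : ch Z q = jacobiSym M q := by
      unfold ch
      rw [← hM]
      exact (jacobiSym.quadratic_reciprocity_one_mod_four hZ (Nat.odd_iff.2 hodd)).symm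
    unfold kr
    rw [if_neg hq2, if_neg hq2, hrec]
    have h3 : jacobiSym ((-(tn n T : ℤ)) * (g : ℤ) ^ 2) q =
        jacobiSym ((-(tn n T0 : ℤ)) * (M : ℤ)) q := by rw [e']
    rw [jacobiSym.mul_left, jacobiSym.mul_left, hg1, mul_one] at h3
    rw [h3]
    ring

/-- the Euler factors of the twists -/
theorem eul_val (hn : n % 60 = 23 ∨ n % 60 = 47) (hns : Squarefree n) (hT : ∀ l ∈ T, l.Prime)
    (hm : (∏ l ∈ T, l) % 60 = 1 ∨ (∏ l ∈ T, l) % 60 = 49) (hT0 : ∀ l ∈ T0, l.Prime)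
    (hm0 : (∏ l ∈ T0, l) % 60 = 1 ∨ (∏ l ∈ T0, l) % 60 = 49)
    (hZ : (∏ l ∈ T0 ∆ T, l) % 4 = 1) {q : ℕ} (hq : q.Prime) (hq15 : ¬ q ∣ 15)
    (h0 : q ∉ n.primeFactors ∆ T0) (s : ℂ) :
    eul (-(tn n T : ℤ)) s q = (1 - (ap (WT (-(tn n T0 : ℤ))) q : ℂ) *
      ((ch (T0 ∆ T) q : ℂ) * (q : ℂ) ^ (-s)) + (q : ℂ) *
      ((ch (T0 ∆ T) q : ℂ) * (q : ℂ) ^ (-s)) ^ 2)⁻¹ := by
  have hZp : ∀ l ∈ T0 ∆ T, l.Prime := by
    intro l hl
    rcases Finset.mem_symmDiff.1 hl with h | h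
    · exact hT0 l h.1
    · exact hT l h.1
  have hA := odd_of_mod (tn_mod hns hn hT hm)
  have hB := odd_of_mod (tn_mod hns hn hT0 hm0)
  have hA4 : (-(tn n T : ℤ)) % 4 = 1 := by omega
  have hB4 : (-(tn n T0 : ℤ)) % 4 = 1 := by omega
  by_cases h1 : q ∈ n.primeFactors ∆ T
  · have hd : q ∣ tn n T := (dvd_tn hT hq).2 h1
    have hd' : (q : ℤ) ∣ -(tn n T : ℤ) := by
      rw [dvd_neg]
      exact_mod_cast hd
    have hqZ : q ∈ T0 ∆ T := by
      have : (n.primeFactors ∆ T0) ∆ (T0 ∆ T) = n.primeFactors ∆ T := by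
        rw [symmDiff_assoc, symmDiff_symmDiff_cancel_left]
      rw [← this, Finset.mem_symmDiff] at h1
      rcases h1 with h1 | h1
      · exact absurd h1.1 h0
      · exact h1.1
    unfold eul
    rw [ap_twist hA4 hq, kr_zero hA4 hq hd', zero_mul, if_pos (hd'.mul_left 15), ch_mem hZp hq hqZ]
    simp
  · obtain ⟨h2, h3⟩ := kr_rel hn hns hT hm hT0 hm0 hZ hq h1 h0
    have hnd : ¬ (q : ℤ) ∣ 15 * -(tn n T : ℤ) := by
      intro h4
      have h5 : q ∣ 15 * tn n T := by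
        have : (q : ℤ) ∣ ((15 * tn n T : ℕ) : ℤ) := by
          push_cast
          rw [← dvd_neg]
          have e : -(15 * (tn n T : ℤ)) = 15 * -(tn n T : ℤ) := by ring
          rw [e]
          exact h4
        exact_mod_cast this
      rcases (hq.dvd_mul).1 h5 with h6 | h6
      · exact hq15 h6
      · exact h1 ((dvd_tn hT hq).1 h6)
    unfold eul
    rw [ap_twist hA4 hq, ap_twist hB4 hq, h2, if_neg hnd, prime_cpow q hq.ne_zero]
    have hs := ch_sq hZp hq h3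
    have hs' : (ch (T0 ∆ T) q : ℂ) ^ 2 = 1 := by exact_mod_cast hs
    congr 1
    push_cast
    linear_combination (-(q : ℂ) * ((q : ℂ) ^ (-s)) ^ 2) * hs'

end Run7.h428.NF
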