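import Pool.Agent.Run7.h428.NF.Fld

/-!
# The square roots in a multiquadratic field
-/

set_option autoImplicit false
set_option linter.unusedSectionVars false

open scoped symmDiff

namespace Run7.h428.NF

theorem sqf_eq {m n : ℕ} (hm : Squarefree m) (hn : Squarefree n) (h : IsSquare (m * n)) : m = n := by
  have hg : 0 < Nat.gcd m n := Nat.gcd_pos_of_pos_left _ (Nat.pos_of_ne_zero hm.ne_zero)
  obtain ⟨a, ha⟩ := Nat.gcd_dvd_left m n
  obtain ⟨b, hb⟩ := Nat.gcd_dvd_right m n
  obtain ⟨c, hc⟩ := h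
  have hab : Nat.Coprime a b := by
    have h1 := Nat.coprime_div_gcd_div_gcd hg
    rwa [Nat.div_eq_of_eq_mul_right hg ha, Nat.div_eq_of_eq_mul_right hg hb] at h1
  have hsf : Squarefree (a * b) := by
    rw [Nat.squarefree_mul hab]
    exact ⟨hm.squarefree_of_dvd ⟨_, by rw [mul_comm]; exact ha⟩,
      hn.squarefree_of_dvd ⟨_, by rw [mul_comm]; exact hb⟩⟩
  have h1 : Nat.gcd m n ∣ c := by
    have h2 : Nat.gcd m n ^ 2 ∣ c ^ 2 := by
      refine ⟨a * b, ?_⟩
      calc c ^ 2 = m * n := by rw [hc, pow_two]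
        _ = (Nat.gcd m n * a) * (Nat.gcd m n * b) := by rw [← ha, ← hb]
        _ = _ := by ring
    exact (Nat.pow_dvd_pow_iff two_ne_zero).1 h2
  obtain ⟨d, hd⟩ := h1
  have h3 : a * b = d * d := by
    have h4 : Nat.gcd m n ^ 2 * (a * b) = Nat.gcd m n ^ 2 * (d * d) := by
      calc Nat.gcd m n ^ 2 * (a * b) = (Nat.gcd m n * a) * (Nat.gcd m n * b) := by ring
        _ = m * n := by rw [← ha, ← hb]
        _ = c * c := hc
        _ = (Nat.gcd m n * d) * (Nat.gcd m n * d) := by rw [← hd]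
        _ = _ := by ring
    exact Nat.eq_of_mul_eq_mul_left (pow_pos hg 2) h4
  have h5 : IsUnit d := hsf d ⟨1, by rw [h3, mul_one]⟩
  have h6 : d = 1 := Nat.isUnit_iff.1 h5
  rw [h6, mul_one] at h3
  have ha1 : a = 1 := Nat.eq_one_of_mul_eq_one_right h3
  have hb1 : b = 1 := Nat.eq_one_of_mul_eq_one_left h3
  rw [ha1, mul_one] at ha
  rw [hb1, mul_one] at hb
  exact ha.trans hb.symm

section

variable {F : Type} [Field F] [NumberField F] {H : Finset (Finset ℕ)} {r : Finset ℕ → F}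

/-- the sign character of a square root -/
noncomputable def chz {F : Type} [Field F] [NumberField F] (z : F) (h0 : z ≠ 0)
    (h : ∀ σ : F ≃ₐ[ℚ] F, σ z = z ∨ σ z = -z) : (F ≃ₐ[ℚ] F) →* F where
  toFun σ := σ z / z
  map_one' := div_self h0
  map_mul' σ τ := by
    rw [AlgEquiv.mul_apply]
    rcases h σ with h1 | h1 <;> rcases h τ with h2 | h2 <;>
      simp [h1, h2, h0]

/-- **the square roots of squarefree numbers in the field** -/
theorem MQ.sqrt_mem (h : MQ F H r) {m : ℕ} (hm : Squarefree m) {z : F} (hz : z ^ 2 = (m : F)) :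
    m.primeFactors ∈ H := by
  classical
  have hG := h.isGalois
  have hz0 : z ≠ 0 := by
    rintro rfl
    rw [zero_pow two_ne_zero] at hz
    exact hm.ne_zero (by exact_mod_cast hz.symm)
  have hs : ∀ σ : F ≃ₐ[ℚ] F, σ z = z ∨ σ z = -z := by
    intro σ
    rw [← sq_eq_sq_iff_eq_or_eq_neg, ← map_pow, hz, map_natCast]
  -- a square root with the same character
  obtain ⟨T, hT, hTz⟩ : ∃ T ∈ H, ∀ σ : F ≃ₐ[ℚ] F, σ z / z = σ (r T) / r T := by
    by_contra hc
    push Not at hc
    have hli := linearIndependent_monoidHom (F ≃ₐ[ℚ] F) F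
    let e : Option H → ((F ≃ₐ[ℚ] F) →* F) := fun o => o.elim (chz z hz0 hs) fun T => h.chr T.2
    have he : Function.Injective e := by
      intro o o' hoo
      rcases o with _ | T <;> rcases o' with _ | T'
      · rfl
      · exfalso
        obtain ⟨σ, hσ⟩ := hc T' T'.2
        exact hσ (DFunLike.congr_fun hoo σ)
      · exfalso
        obtain ⟨σ, hσ⟩ := hc T T.2
        exact hσ (DFunLike.congr_fun hoo σ).symm
      · congr 1
        refine Subtype.ext (h.inj T.2 T'.2 fun σ => ?_)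
        have h2 : σ (r T) / r T = σ (r T') / r T' := DFunLike.congr_fun hoo σ
        have h3 := h.r_ne T.2
        have h4 := h.r_ne T'.2
        constructor
        · intro h5
          rw [h5, div_self h3] at h2
          exact (eq_div_iff h4).1 h2 ▸ (one_mul _)
        · intro h5
          rw [h5, div_self h4, div_eq_one_iff_eq h3] at h2
          exact h2
    have h5 := (hli.comp e he).fintype_card_le_finrank
    rw [Fintype.card_option, Fintype.card_coe, Module.finrank_fintype_fun_eq_card,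
      ← Nat.card_eq_fintype_card, IsGalois.card_aut_eq_finrank, h.finrank_eq] at h5
    omega
  have hr0 := h.r_ne hT
  have hfix : ∀ σ : F ≃ₐ[ℚ] F, σ (z * r T) = z * r T := by
    intro σ
    have h1 := hTz σ
    rw [map_mul]
    rcases hs σ with h2 | h2
    · rw [h2, div_self hz0, eq_comm, div_eq_one_iff_eq hr0] at h1
      rw [h2, h1]
    · rw [h2, neg_div, div_self hz0, eq_comm, div_eq_iff hr0, neg_one_mul] at h1
      rw [h2, h1, neg_mul_neg]
  have h2 : z * r T ∈ (⊥ : IntermediateField ℚ F) :=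
    (IsGalois.mem_bot_iff_fixed _).2 hfix
  rw [IntermediateField.mem_bot] at h2
  obtain ⟨q, hq⟩ := h2
  have h4 : q ^ 2 = ((m * ∏ l ∈ T, l : ℕ) : ℚ) := by
    apply (algebraMap ℚ F).injective
    rw [map_pow, hq, mul_pow, hz, h.sq T hT, map_natCast, Nat.cast_mul]
  have h5 : IsSquare ((m * ∏ l ∈ T, l : ℕ) : ℚ) := ⟨q, by rw [← h4, pow_two]⟩
  rw [Rat.isSquare_natCast_iff] at h5
  have hsf : Squarefree (∏ l ∈ T, l) := by
    refine Finset.squarefree_prod_of_pairwise_isCoprime (fun a ha b hb hab => ?_)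
      fun l hl => (h.pr T hT l hl).squarefree
    exact Nat.coprime_iff_isRelPrime.1
      ((Nat.coprime_primes (h.pr T hT a ha) (h.pr T hT b hb)).2 hab)
  rw [sqf_eq hm hsf h5, Nat.primeFactors_prod fun l hl => (h.pr T hT l hl)]
  exact hT

end

open Classical in
/-- the sets of primes whose product is a square in the field -/
noncomputable def HF (F : Type) [Field F] (S : Finset ℕ) : Finset (Finset ℕ) :=
  (S.biUnion Nat.primeFactors).powerset.filter fun T => ∃ z : F, z ^ 2 = ((∏ l ∈ T, l : ℕ) : F)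

theorem mem_HF {F : Type} [Field F] {S : Finset ℕ} {T : Finset ℕ} :
    T ∈ HF F S ↔ T ⊆ S.biUnion Nat.primeFactors ∧ ∃ z : F, z ^ 2 = ((∏ l ∈ T, l : ℕ) : F) := by
  classical
  rw [HF, Finset.mem_filter, Finset.mem_powerset]

/-- **the structure of a field generated by square roots** -/
theorem exists_MQ (F : Type) [Field F] [NumberField F] (S : Finset ℕ)
    (hS : ∀ d ∈ S, Squarefree d)
    (h60 : ∀ T : Finset ℕ, (∀ l ∈ T, l.Prime) → (∃ z : F, z ^ 2 = ((∏ l ∈ T, l : ℕ) : F)) →
      (∏ l ∈ T, l) % 60 = 1 ∨ (∏ l ∈ T, l) % 60 = 49)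
    (h1 : ∀ d ∈ S, ∃ z : F, z ^ 2 = (d : F))
    (h2 : ∀ K : Subfield F, (∀ d ∈ S, ∀ z : F, z ^ 2 = (d : F) → z ∈ K) → K = ⊤) :
    ∃ r, MQ F (HF F S) r := by
  classical
  have hM : ∀ l ∈ S.biUnion Nat.primeFactors, l.Prime := by
    intro l hl
    rw [Finset.mem_biUnion] at hl
    obtain ⟨d, hd, hl⟩ := hl
    exact Nat.prime_of_mem_primeFactors hl
  refine ⟨fun T => if h : ∃ z : F, z ^ 2 = ((∏ l ∈ T, l : ℕ) : F) then h.choose else 0, ?_, ?_, ?_,
    ?_, ?_, ?_⟩
  · intro T hT l hl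
    rw [HF, Finset.mem_filter, Finset.mem_powerset] at hT
    exact hM l (hT.1 hl)
  · intro T hT
    rw [HF, Finset.mem_filter, Finset.mem_powerset] at hT
    exact h60 T (fun l hl => hM l (hT.1 hl)) hT.2
  · rw [HF, Finset.mem_filter, Finset.mem_powerset]
    exact ⟨Finset.empty_subset _, 1, by simp⟩
  · intro T hT T' hT'
    rw [HF, Finset.mem_filter, Finset.mem_powerset] at hT hT' ⊢
    refine ⟨?_, ?_⟩
    · intro l hl
      rw [Finset.mem_symmDiff] at hl
      rcases hl with hl | hl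
      · exact hT.1 hl.1
      · exact hT'.1 hl.1
    · obtain ⟨z, hz⟩ := hT.2
      obtain ⟨z', hz'⟩ := hT'.2
      have hpos : ((∏ l ∈ T ∩ T', l : ℕ) : F) ≠ 0 := by
        have : 0 < ∏ l ∈ T ∩ T', l := Finset.prod_pos fun l hl =>
          (hM l (hT.1 (Finset.mem_inter.1 hl).1)).pos
        exact_mod_cast this.ne'
      refine ⟨z * z' / ((∏ l ∈ T ∩ T', l : ℕ) : F), ?_⟩
      have e1 : ∏ l ∈ T, l = (∏ l ∈ T \ T', l) * ∏ l ∈ T ∩ T', l := by
        rw [← Finset.prod_union (Finset.disjoint_sdiff_inter T T'), Finset.sdiff_union_inter]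
      have e2 : ∏ l ∈ T', l = (∏ l ∈ T' \ T, l) * ∏ l ∈ T ∩ T', l := by
        rw [Finset.inter_comm, ← Finset.prod_union (Finset.disjoint_sdiff_inter T' T),
          Finset.sdiff_union_inter]
      have e3 : ∏ l ∈ symmDiff T T', l = (∏ l ∈ T \ T', l) * ∏ l ∈ T' \ T, l := by
        have h4 : symmDiff T T' = (T \ T') ∪ (T' \ T) := rfl
        rw [h4, Finset.prod_union]
        exact disjoint_sdiff_sdiff
      rw [div_pow, mul_pow, hz, hz', div_eq_iff (pow_ne_zero 2 hpos), e1, e2, e3]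
      push_cast
      ring
  · intro T hT
    rw [HF, Finset.mem_filter] at hT
    simp only [dif_pos hT.2]
    exact hT.2.choose_spec
  · intro K hK
    refine h2 K fun d hd z hz => ?_
    have hprod : ∏ l ∈ d.primeFactors, l = d := Nat.prod_primeFactors_of_squarefree (hS d hd)
    have hex : ∃ z : F, z ^ 2 = ((∏ l ∈ d.primeFactors, l : ℕ) : F) := by
      rw [hprod]
      exact h1 d hd
    have hmem : d.primeFactors ∈ HF F S := by
      rw [HF, Finset.mem_filter, Finset.mem_powerset]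
      exact ⟨Finset.subset_biUnion_of_mem Nat.primeFactors hd, hex⟩
    have h3 := hK _ hmem
    rw [dif_pos hex] at h3
    have h4 : z ^ 2 = hex.choose ^ 2 := by
      rw [hex.choose_spec, hprod, hz]
    rw [sq_eq_sq_iff_eq_or_eq_neg] at h4
    rcases h4 with h4 | h4
    · rw [h4]
      exact h3
    · rw [h4]
      exact K.neg_mem h3

end Run7.h428.NF
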