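import Pool.Agent.Run7.h428.NF.Tn
import Pool.Agent.W164.RC.EP

/-!
# The product of the Euler factors over the places above a prime
-/

set_option autoImplicit false

namespace Run7.h428.NF

open NumberField IsDedekindDomain WeierstrassCurve
open Pool.Agent.H921R2.TatePole Pool.Agent.H82R3.EK
open Pool.Agent.W97.MT (ap)
open Pool.Agent.W189.NF (aV eV)
open Pool.Agent.Y682.XF (kr)
open Run7.h555.P15 (WT ap_twist)
open Pool.Agent.Run7.h741.MF (E15)
open scoped symmDiff

/-- the coefficients at `3` and `5` -/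
theorem ap15 (hmin : Pool.Agent.Run7.h741.MF.S_MIN) {m : ℕ} (hm : m % 60 = 23 ∨ m % 60 = 47) {q : ℕ}
    (hq : q = 3 ∨ q = 5) : ap (WT (-(m : ℤ))) q = -1 := by
  have h4 : (-(m : ℤ)) % 4 = 1 := by omega
  rcases hq with rfl | rfl
  · rw [ap_twist h4 Nat.prime_three]
    have h1 : kr (-(m : ℤ)) 3 = 1 := by
      unfold kr
      rw [if_neg (by norm_num), jacobiSym.mod_left]
      have : (-(m : ℤ)) % ((3 : ℕ) : ℤ) = 1 := by push_cast; omega
      rw [this]
      exact jacobiSym.one_left 3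
    have h2 : ap E15 3 = -1 := by
      unfold ap
      rw [hmin.2.1]
      norm_num
    rw [h1, h2]
    norm_num
  · rw [ap_twist h4 Nat.prime_five]
    have h1 : kr (-(m : ℤ)) 5 = -1 := by
      unfold kr
      rw [if_neg (by norm_num), jacobiSym.mod_left]
      have : (-(m : ℤ)) % ((5 : ℕ) : ℤ) = 2 ∨ (-(m : ℤ)) % ((5 : ℕ) : ℤ) = 3 := by push_cast; omega
      rcases this with h | h <;> rw [h] <;> norm_num
    have h2 : ap E15 5 = 1 := by
      unfold ap
      rw [hmin.2.2.1]
      norm_num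
    rw [h1, h2]
    norm_num

section

variable {F : Type} [Field F] [NumberField F] {H : Finset (Finset ℕ)} {r : Finset ℕ → F}

theorem MQ.ff15 (h : MQ F H r) {q : ℕ} (hq : q = 3 ∨ q = 5) : ff H q = 1 := by
  unfold ff
  rw [if_pos]
  intro T hT _
  have h4 := h.m4 hT
  have h60 := h.m60 T hT
  unfold ch
  obtain ⟨M, hM⟩ : ∃ M, M = ∏ l ∈ T, l := ⟨_, rfl⟩
  rw [← hM] at h4 h60 ⊢
  rcases hq with rfl | rfl
  · rw [show ((3 : ℕ) : ℤ) = (3 : ℕ) from rfl,
      ← jacobiSym.quadratic_reciprocity_one_mod_four h4 (by decide : Odd 3), jacobiSym.mod_left]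
    have : (M : ℤ) % ((3 : ℕ) : ℤ) = 1 := by push_cast; omega
    rw [this]
    exact jacobiSym.one_left 3
  · rw [← jacobiSym.quadratic_reciprocity_one_mod_four h4 (by decide : Odd 5), jacobiSym.mod_left]
    have : (M : ℤ) % ((5 : ℕ) : ℤ) = 1 ∨ (M : ℤ) % ((5 : ℕ) : ℤ) = 4 := by push_cast; omega
    rcases this with h | h <;> rw [h] <;> norm_num

end

theorem t_PP (hmin : Pool.Agent.Run7.h741.MF.S_MIN) : S_PP := by
  intro hM15 hGOOD hADD hISO hMUL hCNT F _ _ H r h n hn h60 s q
  classical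
  rw [finprod_eq_prod_of_fintype]
  have hq := q.2
  by_cases hq15 : (q : ℕ) = 3 ∨ (q : ℕ) = 5
  · have hnT : ∀ T ∈ H, (q : ℕ) ∉ T := by
      intro T hT hqT
      have h1 : (q : ℕ) ∣ ∏ l ∈ T, l := Finset.dvd_prod_of_mem (fun p : ℕ => p) hqT
      have h2 := h.m60 T hT
      rcases hq15 with h3 | h3 <;> rw [h3] at h1 <;> omega
    have hff : ff H (q : ℕ) = 1 := h.ff15 hq15
    have hcount := h.count q
    rw [hff, mul_one, Finset.filter_true_of_mem hnT] at hcount
    have hL : ∀ v : {v : HeightOneSpectrum (𝓞 F) // below v = q},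
        LF (EF F (-(n : ℤ))) s v.1 = (1 + ((q : ℕ) : ℂ) ^ (-s))⁻¹ := by
      intro v
      have hb : (below v.1 : ℕ) = q := by rw [v.2]
      have hd : deg v.1 = 1 := by rw [h.deg_eq v.1 hb, hff]
      obtain ⟨a1, a2⟩ := hM15 hMUL F v.1 n h60 (by rw [hb]; exact hq15) hd
      unfold LF
      rw [a1, a2, (nm_eq v.1).1, hd, pow_one, hb]
      push_cast
      congr 1
      ring
    have hR : ∀ T ∈ H, eul (-(tn n T : ℤ)) s q = (1 + ((q : ℕ) : ℂ) ^ (-s))⁻¹ := by
      intro T hT
      unfold eul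
      rw [ap15 hmin (tn_mod hn h60 (h.pr T hT) (h.m60 T hT)) hq15, if_pos]
      · push_cast
        congr 1
        ring
      · rcases hq15 with h3 | h3 <;> rw [h3]
        · exact Dvd.dvd.mul_right (by norm_num) _
        · exact Dvd.dvd.mul_right (by norm_num) _
    rw [Finset.prod_congr rfl fun v _ => hL v, Finset.prod_const, Finset.prod_congr rfl hR,
      Finset.prod_const, Finset.card_univ, hcount]
  · have hq15' : ¬ (q : ℕ) ∣ 15 := by
      intro hd
      have h1 : (q : ℕ) ∣ 3 * 5 := hd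
      rcases (hq.dvd_mul).1 h1 with h2 | h2
      · exact hq15 (Or.inl ((Nat.prime_dvd_prime_iff_eq hq Nat.prime_three).1 h2))
      · exact hq15 (Or.inr ((Nat.prime_dvd_prime_iff_eq hq Nat.prime_five).1 h2))
    by_cases hX : ∃ T0 ∈ H, (q : ℕ) ∉ n.primeFactors ∆ T0
    · obtain ⟨T0, hT0, h0⟩ := hX
      have hB := odd_of_mod (tn_mod hn h60 (h.pr T0 hT0) (h.m60 T0 hT0))
      have hiso : ∃ C : VariableChange F, C • EF F (-(n : ℤ)) = EF F (-(tn n T0 : ℤ)) := by
        have e := tn_eq (T := T0) hn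
        set g := ∏ p ∈ n.primeFactors ∩ T0, p with hg
        have hg0 : (g : F) ≠ 0 := by
          have : g ≠ 0 := Finset.prod_ne_zero_iff.2 fun p hp =>
            (h.pr T0 hT0 p (Finset.mem_inter.1 hp).2).ne_zero
          exact_mod_cast this
        refine hISO F _ _ ((n : F) / g * r T0) (by omega) (by omega) ?_
        have e' : (tn n T0 : F) * (g : F) ^ 2 = (n : F) * ((∏ l ∈ T0, l : ℕ) : F) := by
          rw [← Nat.cast_pow, ← Nat.cast_mul, e, Nat.cast_mul]
        rw [mul_pow, h.sq T0 hT0, div_pow, div_mul_eq_mul_div, div_eq_iff (pow_ne_zero 2 hg0),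
          Int.cast_mul, Int.cast_neg, Int.cast_neg, Int.cast_natCast, Int.cast_natCast]
        linear_combination (-(n : F)) * e'
      obtain ⟨C, hC⟩ := hiso
      have hnd : ¬ (((q : ℕ) : ℤ)) ∣ 15 * (-(tn n T0 : ℤ)) := by
        intro h4
        have h5 : (q : ℕ) ∣ 15 * tn n T0 := by
          have : ((q : ℕ) : ℤ) ∣ ((15 * tn n T0 : ℕ) : ℤ) := by
            push_cast
            rw [← dvd_neg]
            have e : -(15 * (tn n T0 : ℤ)) = 15 * -(tn n T0 : ℤ) := by ring
            rw [e]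
            exact h4
          exact_mod_cast this
        rcases (hq.dvd_mul).1 h5 with h6 | h6
        · exact hq15' h6
        · exact h0 ((dvd_tn (h.pr T0 hT0) hq).1 h6)
      have hf2 : ff H (q : ℕ) = 1 ∨ ff H (q : ℕ) = 2 := by
        unfold ff
        split_ifs
        · exact Or.inl rfl
        · exact Or.inr rfl
      obtain ⟨a, ha⟩ : ∃ a : ℤ, a = ap (WT (-(tn n T0 : ℤ))) q := ⟨_, rfl⟩
      have hL : ∀ v : {v : HeightOneSpectrum (𝓞 F) // below v = q},
          LF (EF F (-(n : ℤ))) s v.1 = (1 - ((luc a (q : ℕ) (ff H (q : ℕ)) : ℤ) : ℂ) *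
            (((q : ℕ) : ℂ) ^ (-s)) ^ (ff H (q : ℕ)) + ((q : ℕ) : ℂ) ^ (ff H (q : ℕ)) *
            ((((q : ℕ) : ℂ) ^ (-s)) ^ (ff H (q : ℕ))) ^ 2)⁻¹ := by
        intro v
        have hb : (below v.1 : ℕ) = q := by rw [v.2]
        have hd : deg v.1 = ff H (q : ℕ) := h.deg_eq v.1 hb
        obtain ⟨a1, a2⟩ := hGOOD hCNT F v.1 (-(tn n T0 : ℤ)) (EF F (-(n : ℤ))) C (by omega)
          (by rw [hb]; exact hnd) (by rw [hd]; omega) hC
        rw [hb, hd, ← ha] at a1
        rw [hb, hd] at a2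
        unfold LF
        rw [a1, a2, (nm_eq v.1).1, hb, hd, Pool.Agent.W164.RC.pow_cpow']
        push_cast
        rfl
      have hR : ∀ T ∈ H, eul (-(tn n T : ℤ)) s q = (1 - (a : ℂ) *
          ((ch (T0 ∆ T) q : ℂ) * ((q : ℕ) : ℂ) ^ (-s)) + ((q : ℕ) : ℂ) *
          ((ch (T0 ∆ T) q : ℂ) * ((q : ℕ) : ℂ) ^ (-s)) ^ 2)⁻¹ := by
        intro T hT
        rw [ha]
        exact eul_val h60 hn (h.pr T hT) (h.m60 T hT) (h.pr T0 hT0) (h.m60 T0 hT0)
          (h.m4 (h.sd T0 hT0 T hT)) hq hq15' h0 s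
      have hre : ∏ T ∈ H, (1 - (a : ℂ) *
          ((ch (T0 ∆ T) q : ℂ) * ((q : ℕ) : ℂ) ^ (-s)) + ((q : ℕ) : ℂ) *
          ((ch (T0 ∆ T) q : ℂ) * ((q : ℕ) : ℂ) ^ (-s)) ^ 2) =
          ∏ T ∈ H, (1 - (a : ℂ) *
          ((ch T q : ℂ) * ((q : ℕ) : ℂ) ^ (-s)) + ((q : ℕ) : ℂ) *
          ((ch T q : ℂ) * ((q : ℕ) : ℂ) ^ (-s)) ^ 2) := by
        refine Finset.prod_bij' (fun T _ => T0 ∆ T) (fun T _ => T0 ∆ T)
          (fun T hT => h.sd T0 hT0 T hT) (fun T hT => h.sd T0 hT0 T hT) ?_ ?_ ?_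
        · intro T _
          exact symmDiff_symmDiff_cancel_left T0 T
        · intro T _
          exact symmDiff_symmDiff_cancel_left T0 T
        · intro T _
          rfl
      rw [Finset.prod_congr rfl fun v _ => hL v, Finset.prod_const, Finset.card_univ,
        Finset.prod_congr rfl hR, Finset.prod_inv_distrib, hre, h.prod_quad q.2, inv_pow]
      have hcount := h.count q
      rcases hf2 with hf | hf
      · rw [if_pos hf, hf]
        rw [hf, mul_one] at hcount
        rw [← hcount]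
        have e : luc a (q : ℕ) 1 = a := rfl
        rw [e]
        congr 2
        ring
      · rw [if_neg (by rw [hf]; norm_num), hf]
        rw [hf] at hcount
        rw [← hcount, Nat.mul_div_cancel _ (by norm_num)]
        have e : luc a (q : ℕ) 2 = a * a - (q : ℕ) * 2 := rfl
        rw [e]
        push_cast
        congr 2
    · push Not at hX
      have hU : (q : ℕ) ∈ n.primeFactors := by
        have := hX ∅ h.emp
        rwa [show n.primeFactors ∆ ∅ = n.primeFactors from symmDiff_bot _] at this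
      have hnT : ∀ T ∈ H, (q : ℕ) ∉ T := by
        intro T hT hqT
        have := hX T hT
        rw [Finset.mem_symmDiff] at this
        tauto
      have hqn : (q : ℕ) ∣ n := Nat.dvd_of_mem_primeFactors hU
      have hn4 := odd_of_mod h60
      have hL : ∀ v : {v : HeightOneSpectrum (𝓞 F) // below v = q},
          LF (EF F (-(n : ℤ))) s v.1 = 1 := by
        intro v
        have hb : (below v.1 : ℕ) = q := by rw [v.2]
        obtain ⟨a1, a2⟩ := hADD F v.1 (-(n : ℤ)) (by omega)
          (by rw [hb, dvd_neg]; exact_mod_cast hqn)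
          (by
            rw [hb, dvd_neg]
            intro h1
            have h2 : (q : ℕ) ^ 2 ∣ n := by exact_mod_cast h1
            have h3 := Nat.isUnit_iff.1 (hn (q : ℕ) (by rw [← pow_two]; exact h2))
            exact hq.one_lt.ne' h3)
          (by rw [hb]; exact fun h1 => hq15 (Or.inl h1))
          (by rw [hb]; exact fun h1 => hq15 (Or.inr h1))
          (by rw [hb]; exact h.val_one v.1 hb hnT)
        unfold LF
        rw [a1, a2]
        simp
      have hR : ∀ T ∈ H, eul (-(tn n T : ℤ)) s q = 1 := by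
        intro T hT
        have hA := odd_of_mod (tn_mod hn h60 (h.pr T hT) (h.m60 T hT))
        have hd : (q : ℕ) ∣ tn n T := (dvd_tn (h.pr T hT) hq).2 (hX T hT)
        have hd' : ((q : ℕ) : ℤ) ∣ -(tn n T : ℤ) := by
          rw [dvd_neg]
          exact_mod_cast hd
        have hA4 : (-(tn n T : ℤ)) % 4 = 1 := by omega
        unfold eul
        rw [ap_twist hA4 hq, kr_zero hA4 hq hd', zero_mul, if_pos (hd'.mul_left 15)]
        simp
      rw [Finset.prod_congr rfl fun v _ => hL v, Finset.prod_congr rfl hR, Finset.prod_const_one,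
        Finset.prod_const_one]

end Run7.h428.NF
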