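import Pool.Agent.Run7.h428.NF.Fld

/-!
# The decomposition of the primes in a multiquadratic field
-/

set_option autoImplicit false

open NumberField
open scoped symmDiff

namespace Run7.h428.NF

section

variable {F : Type} [Field F] [NumberField F] {H : Finset (Finset ℕ)} {r : Finset ℕ → F}

theorem not_dvd {T : Finset ℕ} (h : ∀ l ∈ T, l.Prime) {p : ℕ} (hp : p.Prime)
    (hpT : p ∉ T) : ¬ p ∣ ∏ l ∈ T, l := by
  intro hd
  obtain ⟨l, hl, h1⟩ := (Prime.dvd_finsetProd_iff hp.prime _).1 hd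
  exact hpT (((Nat.prime_dvd_prime_iff_eq hp (h l hl)).1 h1) ▸ hl)

/-- the root as an integer -/
noncomputable def MQ.ri (h : MQ F H r) {T : Finset ℕ} (hT : T ∈ H) : 𝓞 F :=
  ⟨r T, by
    refine IsIntegral.of_pow (n := 2) (by norm_num) ?_
    rw [h.sq T hT]
    exact isIntegral_natCast _⟩

theorem MQ.ri_coe (h : MQ F H r) {T : Finset ℕ} (hT : T ∈ H) : ((h.ri hT : 𝓞 F) : F) = r T := rfl

theorem MQ.ri_sq (h : MQ F H r) {T : Finset ℕ} (hT : T ∈ H) :
    h.ri hT ^ 2 = ((∏ l ∈ T, l : ℕ) : 𝓞 F) := by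
  apply FaithfulSMul.algebraMap_injective (𝓞 F) F
  rw [map_pow, map_natCast]
  exact h.sq T hT

/-- the half as an integer -/
theorem MQ.half (h : MQ F H r) {T : Finset ℕ} (hT : T ∈ H) :
    ∃ y : 𝓞 F, (y : F) = (1 + r T) / 2 ∧ y ^ 2 = y + (((∏ l ∈ T, l) / 4 : ℕ) : 𝓞 F) := by
  have h4 := h.m4 hT
  obtain ⟨c, hc⟩ : ∃ c, c = (∏ l ∈ T, l) / 4 := ⟨_, rfl⟩
  have hm : ∏ l ∈ T, l = 1 + 4 * c := by omega
  have h1 := h.sq T hT
  rw [hm] at h1
  push_cast at h1
  have h2 : ((1 + r T) / 2) ^ 2 = (1 + r T) / 2 + (c : F) := by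
    field_simp
    linear_combination h1
  have h3 : IsIntegral ℤ ((1 + r T) / 2) := by
    refine ⟨Polynomial.X ^ 2 - Polynomial.X - Polynomial.C (c : ℤ), ?_, ?_⟩
    · have : (Polynomial.X ^ 2 - Polynomial.X - Polynomial.C (c : ℤ) : Polynomial ℤ) =
        Polynomial.X ^ 2 + (-Polynomial.X - Polynomial.C (c : ℤ)) := by ring
      rw [this]
      refine Polynomial.monic_X_pow_add ?_
      refine (Polynomial.degree_sub_le _ _).trans_lt ?_
      rw [max_lt_iff]
      constructor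
      · rw [Polynomial.degree_neg, Polynomial.degree_X]
        norm_num
      · exact Polynomial.degree_C_le.trans_lt (by norm_num)
    · simp only [Polynomial.eval₂_sub, Polynomial.eval₂_pow, Polynomial.eval₂_X, Polynomial.eval₂_C]
      rw [h2]
      simp
  obtain ⟨y, hy⟩ : ∃ y : 𝓞 F, (y : F) = (1 + r T) / 2 := ⟨⟨_, h3⟩, rfl⟩
  refine ⟨y, hy, ?_⟩
  apply FaithfulSMul.algebraMap_injective (𝓞 F) F
  rw [map_pow, map_add, map_natCast, ← hc]
  have hy' : (algebraMap (𝓞 F) F) y = (1 + r T) / 2 := hy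
  rw [hy']
  exact h2

theorem smul_coe (σ : F ≃ₐ[ℚ] F) (x : 𝓞 F) : ((σ • x : 𝓞 F) : F) = σ (x : F) := rfl

omit [NumberField F] in
theorem nat_mem {P : Ideal (𝓞 F)} [hP : P.IsPrime] {p : ℕ} (hp : p.Prime) (hpP : (p : 𝓞 F) ∈ P)
    {n : ℕ} (hn : (n : 𝓞 F) ∈ P) : p ∣ n := by
  by_contra hd
  have hcop : Nat.Coprime p n := (Nat.Prime.coprime_iff_not_dvd hp).2 hd
  obtain ⟨a, b, hab⟩ := Nat.isCoprime_iff_coprime.2 hcop
  apply hP.ne_top
  rw [Ideal.eq_top_iff_one]
  have h3 : ((a : 𝓞 F) * (p : 𝓞 F) + (b : 𝓞 F) * (n : 𝓞 F)) = 1 := by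
    have := congrArg (Int.cast : ℤ → 𝓞 F) hab
    push_cast at this
    exact this
  rw [← h3]
  exact add_mem (Ideal.mul_mem_left _ _ hpP) (Ideal.mul_mem_left _ _ hn)

/-- the sign of the Frobenius -/
noncomputable def ch (T : Finset ℕ) (p : ℕ) : ℤ := jacobiSym p (∏ l ∈ T, l)

theorem MQ.ri_not_mem (h : MQ F H r) {T : Finset ℕ} (hT : T ∈ H) {P : Ideal (𝓞 F)} [hP : P.IsPrime]
    {p : ℕ} (hp : p.Prime) (hpP : (p : 𝓞 F) ∈ P) (hpT : p ∉ T) : h.ri hT ∉ P := by
  intro h1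
  have h2 : ((∏ l ∈ T, l : ℕ) : 𝓞 F) ∈ P := by
    rw [← h.ri_sq hT]
    exact Ideal.pow_mem_of_mem P h1 2 (by norm_num)
  exact not_dvd (h.pr T hT) hp hpT (nat_mem hp hpP h2)

/-- the sign of an automorphism that is close to a sign -/
theorem MQ.near (h : MQ F H r) {T : Finset ℕ} (hT : T ∈ H) {P : Ideal (𝓞 F)} [hP : P.IsPrime]
    {p : ℕ} (hp : p.Prime) (hp2 : p ≠ 2) (hpP : (p : 𝓞 F) ∈ P) (hpT : p ∉ T) (σ : F ≃ₐ[ℚ] F)
    {s : ℤ} (hs : s = 1 ∨ s = -1) (hσ : σ • h.ri hT - (s : 𝓞 F) * h.ri hT ∈ P) :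
    σ (r T) = s * r T := by
  have h2 : (2 : 𝓞 F) ∉ P := by
    intro h2
    have h3 : ((2 : ℕ) : 𝓞 F) ∈ P := by exact_mod_cast h2
    exact hp2 ((Nat.prime_dvd_prime_iff_eq hp Nat.prime_two).1 (nat_mem hp hpP h3))
  have key : ∀ t : ℤ, σ (r T) = t * r T → t = s ∨ (t = -s ∧ False) ∨ t ≠ -s := by
    intro t ht
    by_cases h3 : t = -s
    · exfalso
      have h4 : σ • h.ri hT = (t : 𝓞 F) * h.ri hT := by
        apply FaithfulSMul.algebraMap_injective (𝓞 F) F
        rw [map_mul, map_intCast]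
        exact ht
      rw [h4, h3] at hσ
      have h5 : (((-s : ℤ) : 𝓞 F) * h.ri hT - (s : 𝓞 F) * h.ri hT) = -(2 * ((s : 𝓞 F) * h.ri hT)) := by
        push_cast
        ring
      rw [h5, neg_mem_iff] at hσ
      rcases hP.mem_or_mem hσ with h6 | h6
      · exact h2 h6
      · rcases hs with rfl | rfl
        · rw [Int.cast_one, one_mul] at h6
          exact h.ri_not_mem hT hp hpP hpT h6
        · rw [Int.cast_neg, Int.cast_one, neg_one_mul, neg_mem_iff] at h6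
          exact h.ri_not_mem hT hp hpP hpT h6
    · exact Or.inr (Or.inr h3)
  rcases h.sgn σ hT with h3 | h3
  · have h4 := key 1 (by rw [h3]; simp)
    rcases hs with rfl | rfl
    · rw [h3]; simp
    · rcases h4 with h4 | h4 | h4
      · exact absurd h4 (by norm_num)
      · exact absurd h4.2 id
      · exact absurd rfl h4
  · have h4 := key (-1) (by rw [h3]; simp)
    rcases hs with rfl | rfl
    · rcases h4 with h4 | h4 | h4
      · exact absurd h4 (by norm_num)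
      · exact absurd h4.2 id
      · exact absurd rfl h4
    · rw [h3]; simp

theorem ch_val {T : Finset ℕ} (h : ∀ l ∈ T, l.Prime) {p : ℕ} (hp : p.Prime)
    (hpT : p ∉ T) : ch T p = 1 ∨ ch T p = -1 := by
  unfold ch
  refine jacobiSym.eq_one_or_neg_one ?_
  have h1 : Nat.Coprime p (∏ l ∈ T, l) := (Nat.Prime.coprime_iff_not_dvd hp).2 (not_dvd h hp hpT)
  exact_mod_cast h1

/-- the inertia group fixes the roots prime to `p` -/
theorem MQ.inert (h : MQ F H r) {T : Finset ℕ} (hT : T ∈ H) {P : Ideal (𝓞 F)} [hP : P.IsPrime]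
    {p : ℕ} (hp : p.Prime) (hpP : (p : 𝓞 F) ∈ P) (hpT : p ∉ T) {σ : F ≃ₐ[ℚ] F}
    (hσ : ∀ x : 𝓞 F, σ • x - x ∈ P) : σ (r T) = r T := by
  by_cases hp2 : p = 2
  · rcases h.sgn σ hT with h1 | h1
    · exact h1
    · exfalso
      obtain ⟨y, hy, -⟩ := h.half hT
      have h2 := hσ y
      have h3 : σ • y - y = -h.ri hT := by
        apply FaithfulSMul.algebraMap_injective (𝓞 F) F
        rw [map_sub, map_neg]
        show ((σ • y : 𝓞 F) : F) - (y : F) = -((h.ri hT : 𝓞 F) : F)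
        rw [smul_coe, hy, h.ri_coe, map_div₀, map_add, map_one, map_ofNat, h1]
        ring
      rw [h3, neg_mem_iff] at h2
      exact h.ri_not_mem hT hp hpP hpT h2
  · have h1 := h.near hT hp hp2 hpP hpT σ (s := 1) (Or.inl rfl) (by
      rw [Int.cast_one, one_mul]
      exact hσ _)
    rw [h1]
    simp

/-- the Frobenius acts on the roots prime to `p` by the quadratic symbol -/
theorem MQ.frob (h : MQ F H r) {T : Finset ℕ} (hT : T ∈ H) {P : Ideal (𝓞 F)} [hP : P.IsPrime]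
    {p : ℕ} (hp : p.Prime) (hpP : (p : 𝓞 F) ∈ P) (hpT : p ∉ T) {σ : F ≃ₐ[ℚ] F}
    (hσ : ∀ x : 𝓞 F, σ • x - x ^ p ∈ P) : σ (r T) = ch T p * r T := by
  have hm4 := h.m4 hT
  obtain ⟨m, hm⟩ : ∃ m, m = ∏ l ∈ T, l := ⟨_, rfl⟩
  have hch : ch T p = jacobiSym p m := by
    unfold ch
    rw [hm]
  rw [← hm] at hm4
  by_cases hp2 : p = 2
  · subst hp2
    obtain ⟨y, hy, hy2⟩ := h.half hT
    rw [← hm] at hy2
    have h2 := hσ y
    rw [hy2] at h2
    have h8 : ch T 2 = if m % 8 = 1 then 1 else -1 := by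
      rw [hch]
      push_cast
      rw [jacobiSym.at_two (by rw [Nat.odd_iff]; omega), ZMod.χ₈_nat_eq_if_mod_eight]
      by_cases h1 : m % 8 = 1
      · rw [if_neg (by omega), if_pos (Or.inl h1), if_pos h1]
      · rw [if_neg (by omega), if_neg (by omega), if_neg h1]
    rcases h.sgn σ hT with h1 | h1
    · have h3 : σ • y = y := by
        apply FaithfulSMul.algebraMap_injective (𝓞 F) F
        show ((σ • y : 𝓞 F) : F) = (y : F)
        rw [smul_coe, hy, map_div₀, map_add, map_one, map_ofNat, h1]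
      rw [h3, sub_add_cancel_left, neg_mem_iff] at h2
      have h4 := nat_mem hp hpP h2
      rw [h8, if_pos (by omega), h1]
      simp
    · rw [h8, if_neg, h1]
      · simp
      intro h8
      have h3 : σ • y - (y + ((m / 4 : ℕ) : 𝓞 F)) = -h.ri hT - ((m / 4 : ℕ) : 𝓞 F) := by
        apply FaithfulSMul.algebraMap_injective (𝓞 F) F
        rw [map_sub, map_sub, map_neg, map_add, map_natCast]
        show ((σ • y : 𝓞 F) : F) - ((y : F) + _) = -((h.ri hT : 𝓞 F) : F) - _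
        rw [smul_coe, hy, h.ri_coe, map_div₀, map_add, map_one, map_ofNat, h1]
        ring
      rw [h3] at h2
      have h4 : ((m / 4 : ℕ) : 𝓞 F) ∈ P := by
        obtain ⟨k, hk⟩ : 2 ∣ m / 4 := by omega
        rw [hk]
        push_cast
        refine Ideal.mul_mem_right _ _ ?_
        exact_mod_cast hpP
      have h5 := P.add_mem h2 h4
      rw [sub_add_cancel, neg_mem_iff] at h5
      exact h.ri_not_mem hT hp hpP hpT h5
  · have hodd : p % 2 = 1 := by
      rcases hp.eq_two_or_odd with h1 | h1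
      · exact absurd h1 hp2
      · exact h1
    have : Fact p.Prime := ⟨hp⟩
    have hleg : ch T p = legendreSym p m := by
      rw [hch, jacobiSym.legendreSym.to_jacobiSym]
      exact (jacobiSym.quadratic_reciprocity_one_mod_four hm4 (Nat.odd_iff.2 hodd)).symm
    have h1 : ((ch T p : ℤ) : 𝓞 F) - (m : 𝓞 F) ^ (p / 2) ∈ P := by
      have h2 := legendreSym.eq_pow p (m : ℤ)
      rw [← hleg] at h2
      have h3 : (p : ℤ) ∣ ch T p - (m : ℤ) ^ (p / 2) := by
        rw [← ZMod.intCast_zmod_eq_zero_iff_dvd]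
        push_cast
        rw [h2]
        push_cast
        rw [sub_self]
      obtain ⟨k, hk⟩ := h3
      have h4 : ((ch T p : ℤ) : 𝓞 F) - (m : 𝓞 F) ^ (p / 2) = (p : 𝓞 F) * (k : 𝓞 F) := by
        have := congrArg (Int.cast : ℤ → 𝓞 F) hk
        push_cast at this
        exact this
      rw [h4]
      exact Ideal.mul_mem_right _ _ hpP
    have h2 : h.ri hT ^ p = (m : 𝓞 F) ^ (p / 2) * h.ri hT := by
      have h3 : p = 2 * (p / 2) + 1 := by omega
      conv_lhs => rw [h3]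
      rw [pow_succ, pow_mul, h.ri_sq hT, ← hm]
    refine h.near hT hp hp2 hpP hpT σ (ch_val (h.pr T hT) hp hpT) ?_
    have h3 := hσ (h.ri hT)
    rw [h2] at h3
    have h4 := P.sub_mem h3 (Ideal.mul_mem_right (h.ri hT) P h1)
    have h5 : σ • h.ri hT - (m : 𝓞 F) ^ (p / 2) * h.ri hT -
        (((ch T p : ℤ) : 𝓞 F) - (m : 𝓞 F) ^ (p / 2)) * h.ri hT =
        σ • h.ri hT - ((ch T p : ℤ) : 𝓞 F) * h.ri hT := by ring
    rwa [h5] at h4

end

end Run7.h428.NF
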