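import Pool.Agent.Run7.h428.NF.Ram
import Pool.Agent.H82R3.EK.Fiber

/-!
# The places of a multiquadratic field, and the products of the Euler factors
-/

set_option autoImplicit false

open NumberField IsDedekindDomain
open Pool.Agent.H921R2.TatePole Pool.Agent.H82R3.EK
open scoped symmDiff

namespace Run7.h428.NF

section

variable {F : Type} [Field F] [NumberField F] {H : Finset (Finset ℕ)} {r : Finset ℕ → F}

/-- the residue degree -/
theorem MQ.deg_eq (h : MQ F H r) (v : HeightOneSpectrum (𝓞 F)) {p : ℕ} (hv : (below v : ℕ) = p) :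
    deg v = ff H p := by
  have hp : Fact p.Prime := ⟨hv ▸ (below v).2⟩
  have hmem : (p : 𝓞 F) ∈ v.asIdeal := by
    rw [← hv]
    exact (nm_eq v).2.2
  have hl := liesOver_of_mem F hp.out v hmem
  have hvp := v.isPrime
  have h4 := Ideal.pow_inertiaDeg p v.asIdeal
  have h5 := (nm_eq v).1
  rw [hv] at h5
  have h6 : p ^ (v.asIdeal.inertiaDeg ℤ) = p ^ deg v := by rw [h4, ← h5]; rfl
  have h7 := Nat.pow_right_injective hp.out.two_le h6
  rw [← h7]
  exact h.card_res h.isGalois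

/-- the number of the places above a prime -/
theorem MQ.count (h : MQ F H r) (p : Nat.Primes) :
    Fintype.card {v : HeightOneSpectrum (𝓞 F) // below v = p} * ff H p =
      (H.filter fun T => (p : ℕ) ∉ T).card := by
  have hp : Fact (p : ℕ).Prime := ⟨p.2⟩
  rw [card_fiber]
  have hpmax : (Ideal.span {((p : ℕ) : ℤ)}).IsMaximal := Int.ideal_span_isMaximal_of_prime p
  obtain ⟨⟨P, hP1, hP2⟩⟩ := (Ideal.span {((p : ℕ) : ℤ)}).nonempty_primesOver (S := 𝓞 F)
  have h1 := h.card_places (p := (p : ℕ)) h.isGalois P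
  have h2 := h.card_split (p : ℕ)
  have h3 : 0 < ee H (p : ℕ) := by
    unfold ee
    split_ifs <;> norm_num
  apply Nat.eq_of_mul_eq_mul_right h3
  rw [h2, ← h1]
  ring

/-- the valuation of an unramified prime -/
theorem MQ.val_one (h : MQ F H r) (v : HeightOneSpectrum (𝓞 F)) {q : ℕ} (hv : (below v : ℕ) = q)
    (hq : ∀ T ∈ H, q ∉ T) : v.valuation F (q : F) = WithZero.exp (-1 : ℤ) := by
  classical
  have hp : Fact q.Prime := ⟨hv ▸ (below v).2⟩
  have hmem : (q : 𝓞 F) ∈ v.asIdeal := by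
    rw [← hv]
    exact (nm_eq v).2.2
  have hl := liesOver_of_mem F hp.out v hmem
  have hvp := v.isPrime
  have hG := h.isGalois
  have hpmax : (Ideal.span {(q : ℤ)}).IsMaximal := Int.ideal_span_isMaximal_of_prime q
  have h1 := Ideal.card_inertia_eq_ramificationIdxIn (G := Gal(F/ℚ)) (Ideal.span {(q : ℤ)}) v.asIdeal
  rw [Ideal.ramificationIdxIn_eq_ramificationIdx (Ideal.span {(q : ℤ)}) v.asIdeal Gal(F/ℚ),
    h.card_inertia hG (P := v.asIdeal) (p := q)] at h1
  have he : ee H q = 1 := by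
    unfold ee
    rw [if_neg]
    rintro ⟨T, hT, hqT⟩
    exact hq T hT hqT
  rw [he] at h1
  have h1 := h1.symm
  have hmap : (Ideal.span {(q : ℤ)}).map (algebraMap ℤ (𝓞 F)) = Ideal.span {(q : 𝓞 F)} := by
    rw [Ideal.map_span, Set.image_singleton]
    simp
  have hq0 : (q : 𝓞 F) ≠ 0 := Nat.cast_ne_zero.2 hp.out.ne_zero
  have hne : (Ideal.span {(q : ℤ)}).map (algebraMap ℤ (𝓞 F)) ≠ ⊥ := by
    rw [hmap, Ne, Ideal.span_singleton_eq_bot]
    exact hq0
  rw [Ideal.IsDedekindDomain.ramificationIdx_eq_multiplicity (Ideal.span {(q : ℤ)}) v.asIdeal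
    hne, hmap] at h1
  have h2 : ¬ v.asIdeal ^ 2 ∣ Ideal.span {(q : 𝓞 F)} := by
    have hfin : FiniteMultiplicity v.asIdeal (Ideal.span {(q : 𝓞 F)}) := by
      apply FiniteMultiplicity.of_prime_left
      · exact v.prime
      · rw [Ideal.zero_eq_bot, Ne, Ideal.span_singleton_eq_bot]
        exact hq0
    intro h3
    have := hfin.le_multiplicity_of_pow_dvd h3
    omega
  have h3 : v.valuation F (q : F) = v.intValuation (q : 𝓞 F) := by
    have e : (q : F) = algebraMap (𝓞 F) F (q : 𝓞 F) := (map_natCast _ _).symm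
    rw [e, v.valuation_of_algebraMap]
  rw [h3]
  have h4 : v.intValuation (q : 𝓞 F) < 1 := (v.intValuation_lt_one_iff_mem _).2 hmem
  have h5 : ¬ v.intValuation (q : 𝓞 F) ≤ WithZero.exp (-((2 : ℕ) : ℤ)) := by
    rw [v.intValuation_le_pow_iff_dvd]
    exact h2
  have h6 : v.intValuation (q : 𝓞 F) ≠ 0 := v.intValuation_ne_zero _ hq0
  obtain ⟨k, hk⟩ : ∃ k : ℤ, v.intValuation (q : 𝓞 F) = WithZero.exp k :=
    ⟨WithZero.log _, (WithZero.exp_log h6).symm⟩
  rw [hk] at h4 h5 ⊢
  rw [← WithZero.exp_zero, WithZero.exp_lt_exp] at h4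
  rw [WithZero.exp_le_exp] at h5
  congr 1
  omega

/-- the symbols are multiplicative -/
theorem ch_prod {T : Finset ℕ} (hT : ∀ l ∈ T, l.Prime) (p : ℕ) :
    ch T p = ∏ l ∈ T, jacobiSym p l := by
  classical
  unfold ch
  induction T using Finset.induction_on with
  | empty => simp
  | insert q S hq ih =>
    have ih' := ih fun l hl => hT l (Finset.mem_insert_of_mem hl)
    rw [Finset.prod_insert hq, Finset.prod_insert hq, ← ih', jacobiSym.mul_right']
    · exact (hT q (Finset.mem_insert_self _ _)).ne_zero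
    · exact Finset.prod_ne_zero_iff.2 fun l hl => (hT l (Finset.mem_insert_of_mem hl)).ne_zero

theorem jac_sq {l : ℕ} (hl : l.Prime) {p : ℕ} (hp : p.Prime) (hlp : l ≠ p) :
    jacobiSym p l ^ 2 = 1 := by
  rw [jacobiSym.sq_one]
  rw [Int.gcd_natCast_natCast]
  exact (Nat.coprime_primes hp hl).2 (Ne.symm hlp)

theorem ch_sq {T : Finset ℕ} (hT : ∀ l ∈ T, l.Prime) {p : ℕ} (hp : p.Prime)
    (hpT : p ∉ T) : ch T p ^ 2 = 1 := by
  rw [ch_prod hT, ← Finset.prod_pow]
  refine Finset.prod_eq_one fun l hl => jac_sq (hT l hl) hp ?_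
  rintro rfl
  exact hpT hl

theorem ch_mem {T : Finset ℕ} (hT : ∀ l ∈ T, l.Prime) {p : ℕ} (hp : p.Prime)
    (hpT : p ∈ T) : ch T p = 0 := by
  rw [ch_prod hT]
  refine Finset.prod_eq_zero hpT ?_
  rw [jacobiSym.eq_zero_iff]
  refine ⟨hp.ne_zero, ?_⟩
  rw [Int.gcd_natCast_natCast, Nat.gcd_self]
  exact hp.one_lt.ne'

theorem ch_sd {T T' : Finset ℕ} (hT : ∀ l ∈ T, l.Prime)
    (hT' : ∀ l ∈ T', l.Prime) {p : ℕ} (hp : p.Prime) (hpT : p ∉ T) (hpT' : p ∉ T') :
    ch (symmDiff T T') p = ch T p * ch T' p := by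
  classical
  have h0 : ∀ l ∈ symmDiff T T', l.Prime := by
    intro l hl
    rcases Finset.mem_symmDiff.1 hl with h | h
    · exact hT l h.1
    · exact hT' l h.1
  rw [ch_prod h0, ch_prod hT, ch_prod hT']
  have e1 : ∏ l ∈ T, jacobiSym p l = (∏ l ∈ T \ T', jacobiSym p l) * ∏ l ∈ T ∩ T', jacobiSym p l := by
    rw [← Finset.prod_union]
    · rw [Finset.sdiff_union_inter]
    · exact Finset.disjoint_sdiff_inter T T'
  have e2 : ∏ l ∈ T', jacobiSym p l = (∏ l ∈ T' \ T, jacobiSym p l) * ∏ l ∈ T ∩ T', jacobiSym p l := by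
    rw [Finset.inter_comm, ← Finset.prod_union]
    · rw [Finset.sdiff_union_inter]
    · exact Finset.disjoint_sdiff_inter T' T
  have e3 : ∏ l ∈ symmDiff T T', jacobiSym p l =
      (∏ l ∈ T \ T', jacobiSym p l) * ∏ l ∈ T' \ T, jacobiSym p l := by
    have e : symmDiff T T' = (T \ T') ∪ (T' \ T) := rfl
    rw [e, Finset.prod_union disjoint_sdiff_sdiff]
  have e4 : (∏ l ∈ T ∩ T', jacobiSym p l) * (∏ l ∈ T ∩ T', jacobiSym p l) = 1 := by
    rw [← pow_two, ← Finset.prod_pow]
    refine Finset.prod_eq_one fun l hl => jac_sq (hT l (Finset.mem_inter.1 hl).1) hp ?_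
    rintro rfl
    exact hpT (Finset.mem_inter.1 hl).1
  rw [e1, e2, e3]
  linear_combination (-((∏ l ∈ T \ T', jacobiSym p l) * ∏ l ∈ T' \ T, jacobiSym p l)) * e4

theorem sq_one_cases {x : ℤ} (h : x ^ 2 = 1) : x = 1 ∨ x = -1 :=
  mul_self_eq_one_iff.1 (by rw [← pow_two]; exact h)

/-- the product of the quadratic polynomials over the roots -/
theorem MQ.prod_quad (h : MQ F H r) {p : ℕ} (hp : p.Prime) (a b t : ℂ) :
    ∏ T ∈ H, (1 - a * ((ch T p : ℂ) * t) + b * ((ch T p : ℂ) * t) ^ 2) =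
      if ff H p = 1 then (1 - a * t + b * t ^ 2) ^ (H.filter fun T => p ∉ T).card
      else (1 - (a * a - b * 2) * t ^ 2 + b ^ 2 * (t ^ 2) ^ 2) ^
        ((H.filter fun T => p ∉ T).card / 2) := by
  classical
  have h1 : ∏ T ∈ H, (1 - a * ((ch T p : ℂ) * t) + b * ((ch T p : ℂ) * t) ^ 2) =
      ∏ T ∈ H.filter (fun T => p ∉ T), (1 - a * ((ch T p : ℂ) * t) + b * ((ch T p : ℂ) * t) ^ 2) := by
    refine (Finset.prod_subset (Finset.filter_subset _ _) fun T hT hT' => ?_).symm
    have hpT : p ∈ T := by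
      by_contra hcon
      exact hT' (Finset.mem_filter.2 ⟨hT, hcon⟩)
    rw [ch_mem (h.pr T hT) hp hpT]
    simp
  rw [h1]
  unfold ff
  by_cases hall : ∀ T ∈ H, p ∉ T → ch T p = 1
  · rw [if_pos hall, if_pos rfl]
    rw [Finset.prod_congr rfl (g := fun _ => 1 - a * t + b * t ^ 2), Finset.prod_const]
    intro T hT
    rw [Finset.mem_filter] at hT
    rw [hall T hT.1 hT.2]
    simp
  · rw [if_neg hall, if_neg (by norm_num)]
    push Not at hall
    obtain ⟨T0, hT0, hpT0, hne⟩ := hall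
    have hm1 : ch T0 p = -1 := (sq_one_cases (ch_sq (h.pr T0 hT0) hp hpT0)).resolve_left hne
    set G := H.filter fun T => p ∉ T with hG
    have hGm : ∀ T ∈ G, T ∈ H ∧ p ∉ T := fun T hT => Finset.mem_filter.1 hT
    have hsd : ∀ T ∈ G, symmDiff T T0 ∈ G ∧ ch (symmDiff T T0) p = - ch T p := by
      intro T hT
      obtain ⟨h2, h3⟩ := hGm T hT
      refine ⟨Finset.mem_filter.2 ⟨h.sd T h2 T0 hT0, ?_⟩, ?_⟩
      · rw [Finset.mem_symmDiff]
        tauto
      · rw [ch_sd (h.pr T h2) (h.pr T0 hT0) hp h3 hpT0, hm1]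
        ring
    have hcase : ∀ T ∈ G, ch T p = 1 ∨ ch T p = -1 := fun T hT =>
      sq_one_cases (ch_sq (h.pr T (hGm T hT).1) hp (hGm T hT).2)
    have hcard : (G.filter fun T => ch T p = 1).card = (G.filter fun T => ¬ ch T p = 1).card := by
      refine Finset.card_bij' (fun T _ => symmDiff T T0) (fun T _ => symmDiff T T0) ?_ ?_ ?_ ?_
      · intro T hT
        rw [Finset.mem_filter] at hT ⊢
        obtain ⟨h2, h3⟩ := hsd T hT.1
        refine ⟨h2, ?_⟩
        rw [h3, hT.2]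
        norm_num
      · intro T hT
        rw [Finset.mem_filter] at hT ⊢
        obtain ⟨h2, h3⟩ := hsd T hT.1
        refine ⟨h2, ?_⟩
        rw [h3, (hcase T hT.1).resolve_left hT.2]
        norm_num
      · intro T _
        exact symmDiff_symmDiff_cancel_right T0 T
      · intro T _
        exact symmDiff_symmDiff_cancel_right T0 T
    have hsum := Finset.card_filter_add_card_filter_not (s := G) (fun T => ch T p = 1)
    have hhalf : G.card / 2 = (G.filter fun T => ch T p = 1).card := by omega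
    rw [← Finset.prod_filter_mul_prod_filter_not G (fun T => ch T p = 1)]
    rw [Finset.prod_congr rfl (g := fun _ => 1 - a * t + b * t ^ 2) (s₁ := G.filter fun T => ch T p = 1)
      (fun T hT => by rw [(Finset.mem_filter.1 hT).2]; simp)]
    rw [Finset.prod_congr rfl (g := fun _ => 1 + a * t + b * t ^ 2)
      (s₁ := G.filter fun T => ¬ ch T p = 1) (fun T hT => by
        rw [Finset.mem_filter] at hT
        rw [(hcase T hT.1).resolve_left hT.2]
        push_cast
        ring)]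
    rw [Finset.prod_const, Finset.prod_const, ← hcard, ← mul_pow, hhalf]
    congr 1
    ring

end

end Run7.h428.NF
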