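import Pool.Agent.Run7.h428.NF.Pl

/-!
# Inertia groups, residue degrees and the number of places in a multiquadratic field
-/

set_option autoImplicit false

open NumberField Ideal
open scoped symmDiff

namespace Run7.h428.NF

section

variable {F : Type} [Field F] [NumberField F] {H : Finset (Finset ℕ)} {r : Finset ℕ → F}

/-- an automorphism is determined by its action on the roots prime to `p` and one other root -/
theorem MQ.det (h : MQ F H r) {T0 : Finset ℕ} (hT0 : T0 ∈ H) {p : ℕ} (h0 : p ∈ T0)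
    {σ : F ≃ₐ[ℚ] F} (hσ : ∀ T ∈ H, p ∉ T → σ (r T) = r T) (hσ0 : σ (r T0) = r T0) : σ = 1 := by
  refine h.eq_one fun T hT => ?_
  by_cases hpT : p ∉ T
  · exact hσ T hT hpT
  · push Not at hpT
    have h1 : p ∉ symmDiff T T0 := by
      rw [Finset.mem_symmDiff]
      tauto
    have h2 := hσ _ (h.sd T hT T0 hT0) h1
    have h3 : σ (r T * r T0) = r T * r T0 := by
      rcases h.mul hT hT0 with h4 | h4
      · rw [h4, map_mul, map_natCast, h2]
      · rw [h4, map_neg, map_mul, map_natCast, h2]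
    rw [map_mul, hσ0] at h3
    exact mul_right_cancel₀ (h.r_ne hT0) h3

theorem prod_split {T : Finset ℕ} {p : ℕ} (hpT : p ∈ T) :
    ∏ l ∈ T, l = p * ∏ l ∈ T.erase p, l := (Finset.mul_prod_erase T _ hpT).symm

/-- the ramified primes -/
theorem MQ.sq_mem (h : MQ F H r) {T : Finset ℕ} (hT : T ∈ H) {P : Ideal (𝓞 F)} [hP : P.IsPrime]
    {p : ℕ} (hpP : (p : 𝓞 F) ∈ P) (hpT : p ∈ T) : (p : 𝓞 F) ∈ P ^ 2 := by
  have hp := (h.pr T hT p hpT)
  have h1 := h.ri_sq hT
  have h2 : h.ri hT ∈ P := by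
    apply hP.mem_of_pow_mem 2
    rw [h1, prod_split hpT, Nat.cast_mul]
    exact Ideal.mul_mem_right _ _ hpP
  have h3 : (p : 𝓞 F) * ((∏ l ∈ T.erase p, l : ℕ) : 𝓞 F) ∈ P ^ 2 := by
    rw [← Nat.cast_mul, ← prod_split hpT, ← h1]
    exact Ideal.pow_mem_pow h2 2
  rw [mul_comm] at h3
  rcases Ideal.IsPrime.mul_mem_pow P h3 with h4 | h4
  · exfalso
    have h5 := nat_mem hp hpP h4
    exact not_dvd (T := T.erase p) (fun l hl => h.pr T hT l (Finset.mem_of_mem_erase hl)) hp
      (Finset.notMem_erase p T) h5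
  · exact h4

theorem P_ne_bot {P : Ideal (𝓞 F)} {p : ℕ} (hp : p.Prime) (hpP : (p : 𝓞 F) ∈ P) : P ≠ ⊥ := by
  rintro rfl
  have h4 : (p : 𝓞 F) = 0 := hpP
  exact hp.ne_zero (by exact_mod_cast h4)

omit [NumberField F] in
theorem mem_of_over {P : Ideal (𝓞 F)} {p : ℕ} [hl : P.LiesOver (Ideal.span {(p : ℤ)})] :
    (p : 𝓞 F) ∈ P := by
  have h3 : (p : ℤ) ∈ P.under ℤ := by
    rw [← hl.over]
    exact Ideal.mem_span_singleton_self _
  rw [Ideal.mem_comap] at h3
  simpa using h3

theorem MQ.two_le_e (h : MQ F H r) {T : Finset ℕ} (hT : T ∈ H) {P : Ideal (𝓞 F)} [hP : P.IsPrime]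
    {p : ℕ} [hpf : Fact p.Prime] [hl : P.LiesOver (Ideal.span {(p : ℤ)})] (hpT : p ∈ T) :
    2 ≤ P.ramificationIdx ℤ := by
  have hpP : (p : 𝓞 F) ∈ P := mem_of_over
  have h1 := h.sq_mem hT hpP hpT
  have hmap : (Ideal.span {(p : ℤ)}).map (algebraMap ℤ (𝓞 F)) = Ideal.span {(p : 𝓞 F)} := by
    rw [Ideal.map_span, Set.image_singleton]
    simp
  have hq0 : (p : 𝓞 F) ≠ 0 := Nat.cast_ne_zero.2 hpf.out.ne_zero
  have hne : (Ideal.span {(p : ℤ)}).map (algebraMap ℤ (𝓞 F)) ≠ ⊥ := by
    rw [hmap, Ne, Ideal.span_singleton_eq_bot]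
    exact hq0
  rw [Ideal.IsDedekindDomain.ramificationIdx_eq_multiplicity (Ideal.span {(p : ℤ)}) P hne, hmap]
  have hfin : FiniteMultiplicity P (Ideal.span {(p : 𝓞 F)}) := by
    apply FiniteMultiplicity.of_prime_left
    · exact Ideal.prime_of_isPrime (P_ne_bot hpf.out hpP) hP
    · rw [Ideal.zero_eq_bot, Ne, Ideal.span_singleton_eq_bot]
      exact hq0
  apply hfin.le_multiplicity_of_pow_dvd
  rw [Ideal.dvd_span_singleton]
  exact h1

open Classical in
/-- the ramification index -/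
noncomputable def ee (H : Finset (Finset ℕ)) (p : ℕ) : ℕ := if ∃ T ∈ H, p ∈ T then 2 else 1

open Classical in
/-- the residue degree -/
noncomputable def ff (H : Finset (Finset ℕ)) (p : ℕ) : ℕ :=
  if ∀ T ∈ H, p ∉ T → ch T p = 1 then 1 else 2

section prime

variable {P : Ideal (𝓞 F)} [hP : P.IsPrime] {p : ℕ} [hpf : Fact p.Prime]
  [hl : P.LiesOver (Ideal.span {(p : ℤ)})]

theorem MQ.card_inertia (h : MQ F H r) (hG : IsGalois ℚ F) :
    Nat.card (P.inertia Gal(F/ℚ)) = ee H p := by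
  classical
  have hpP : (p : 𝓞 F) ∈ P := mem_of_over
  have hin : ∀ σ ∈ P.inertia Gal(F/ℚ), ∀ T ∈ H, p ∉ T → σ (r T) = r T := by
    intro σ hσ T hT hpT
    exact h.inert hT hpf.out hpP hpT fun x => hσ x
  unfold ee
  split_ifs with h0
  · obtain ⟨T0, hT0, h0⟩ := h0
    apply le_antisymm
    · have hinj : Function.Injective (fun σ : P.inertia Gal(F/ℚ) => decide ((σ : Gal(F/ℚ)) (r T0) = r T0)) := by
        rintro ⟨σ, hσ⟩ ⟨τ, hτ⟩ hst
        simp only [decide_eq_decide] at hst
        apply Subtype.ext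
        show σ = τ
        by_cases h1 : σ (r T0) = r T0
        · rw [h.det hT0 h0 (hin σ hσ) h1, h.det hT0 h0 (hin τ hτ) (hst.1 h1)]
        · have h2 : τ (r T0) = -r T0 := (h.sgn τ hT0).resolve_left (fun h3 => h1 (hst.2 h3))
          have h1' : σ (r T0) = -r T0 := (h.sgn σ hT0).resolve_left h1
          have h3 : σ * τ = 1 := by
            refine h.det hT0 h0 (fun T hT hpT => ?_) ?_
            · rw [AlgEquiv.mul_apply, hin τ hτ T hT hpT, hin σ hσ T hT hpT]
            · rw [AlgEquiv.mul_apply, h2, map_neg, h1', neg_neg]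
          calc σ = σ * (τ * τ) := by rw [h.sq_one, mul_one]
            _ = (σ * τ) * τ := by rw [mul_assoc]
            _ = τ := by rw [h3, one_mul]
      have h1 := Nat.card_le_card_of_injective _ hinj
      rwa [Nat.card_eq_fintype_card (α := Bool), Fintype.card_bool] at h1
    · have h1 := Ideal.card_inertia_eq_ramificationIdxIn (G := Gal(F/ℚ)) (Ideal.span {(p : ℤ)}) P
      rw [Ideal.ramificationIdxIn_eq_ramificationIdx (Ideal.span {(p : ℤ)}) P Gal(F/ℚ)] at h1
      rw [h1]
      exact h.two_le_e hT0 h0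
  · push Not at h0
    rw [Nat.card_eq_one_iff_unique]
    refine ⟨⟨?_⟩, ⟨1⟩⟩
    rintro ⟨σ, hσ⟩ ⟨τ, hτ⟩
    apply Subtype.ext
    show σ = τ
    rw [h.eq_one fun T hT => hin σ hσ T hT (h0 T hT), h.eq_one fun T hT => hin τ hτ T hT (h0 T hT)]

/-- the Frobenius is in the inertia group if and only if all the symbols are trivial -/
theorem MQ.frob_iff (h : MQ F H r) (hG : IsGalois ℚ F) {φ : Gal(F/ℚ)}
    (hφ : ∀ x : 𝓞 F, φ • x - x ^ p ∈ P) :
    (∀ x : 𝓞 F, φ • x - x ∈ P) ↔ ∀ T ∈ H, p ∉ T → ch T p = 1 := by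
  classical
  have hpP : (p : 𝓞 F) ∈ P := mem_of_over
  have hfr : ∀ T ∈ H, p ∉ T → φ (r T) = ch T p * r T := fun T hT hpT =>
    h.frob hT hpf.out hpP hpT hφ
  constructor
  · intro hin T hT hpT
    have h1 := h.inert hT hpf.out hpP hpT hin
    have h2 := hfr T hT hpT
    rw [h1] at h2
    have h3 : (1 : F) = ch T p := by
      apply mul_right_cancel₀ (h.r_ne hT)
      rw [one_mul]
      exact h2
    exact_mod_cast h3.symm
  · intro hch
    have hfix : ∀ T ∈ H, p ∉ T → φ (r T) = r T := by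
      intro T hT hpT
      rw [hfr T hT hpT, hch T hT hpT]
      simp
    by_cases h0 : ∃ T ∈ H, p ∈ T
    · have hc := h.card_inertia hG (P := P) (p := p)
      unfold ee at hc
      rw [if_pos h0] at hc
      obtain ⟨T0, hT0, h0⟩ := h0
      by_cases h1 : φ (r T0) = r T0
      · rw [h.det hT0 h0 hfix h1]
        intro x
        rw [one_smul, sub_self]
        exact P.zero_mem
      · have h1' : φ (r T0) = -r T0 := (h.sgn φ hT0).resolve_left h1
        -- a nontrivial element of the inertia group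
        have : ∃ τ ∈ P.inertia Gal(F/ℚ), τ ≠ 1 := by
          by_contra hcon
          push Not at hcon
          have : Nat.card (P.inertia Gal(F/ℚ)) = 1 := by
            rw [Nat.card_eq_one_iff_unique]
            refine ⟨⟨?_⟩, ⟨1⟩⟩
            rintro ⟨σ, hσ⟩ ⟨τ, hτ⟩
            apply Subtype.ext
            show σ = τ
            rw [hcon σ hσ, hcon τ hτ]
          omega
        obtain ⟨τ, hτ, hτ1⟩ := this
        have hin : ∀ T ∈ H, p ∉ T → τ (r T) = r T := by
          intro T hT hpT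
          exact h.inert hT hpf.out hpP hpT fun x => hτ x
        have h2 : τ (r T0) = -r T0 := (h.sgn τ hT0).resolve_left
          (fun h3 => hτ1 (h.det hT0 h0 hin h3))
        have h3 : φ * τ = 1 := by
          refine h.det hT0 h0 (fun T hT hpT => ?_) ?_
          · rw [AlgEquiv.mul_apply, hin T hT hpT, hfix T hT hpT]
          · rw [AlgEquiv.mul_apply, h2, map_neg, h1', neg_neg]
        have h4 : φ = τ := by
          calc φ = φ * (τ * τ) := by rw [h.sq_one, mul_one]
            _ = (φ * τ) * τ := by rw [mul_assoc]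
            _ = τ := by rw [h3, one_mul]
        rw [h4]
        exact hτ
    · push Not at h0
      rw [h.eq_one fun T hT => hfix T hT (h0 T hT)]
      intro x
      rw [one_smul, sub_self]
      exact P.zero_mem

/-- the number of elements of the residue field -/
theorem MQ.card_res (h : MQ F H r) (hG : IsGalois ℚ F) : P.inertiaDeg ℤ = ff H p := by
  classical
  have hpP : (p : 𝓞 F) ∈ P := mem_of_over
  have hPmax : P.IsMaximal := hP.isMaximal (P_ne_bot hpf.out hpP)
  have hpmax : (Ideal.span {(p : ℤ)}).IsMaximal := Int.ideal_span_isMaximal_of_prime p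
  have hcard : Nat.card (ℤ ⧸ Ideal.span {(p : ℤ)}) = p := by
    rw [Int.card_ideal_quot]
  have hfin : Finite (𝓞 F ⧸ P) := by
    apply Ideal.finiteQuotientOfFreeOfNeBot
    exact P_ne_bot hpf.out hpP
  obtain ⟨φ, hφ0⟩ := IsArithFrobAt.exists_of_isInvariant (R := ℤ) (G := Gal(F/ℚ)) (Q := P)
  have hφ : ∀ x : 𝓞 F, φ • x - x ^ p ∈ P := by
    intro x
    have h1 := hφ0 x
    rw [← hl.over, hcard] at h1
    exact h1
  letI : Field (𝓞 F ⧸ P) := Ideal.Quotient.field P
  letI : Fintype (𝓞 F ⧸ P) := Fintype.ofFinite _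
  have hk : Nat.card (𝓞 F ⧸ P) = p ^ P.inertiaDeg ℤ := (Ideal.pow_inertiaDeg p P).symm
  obtain ⟨f, hf⟩ : ∃ f, f = P.inertiaDeg ℤ := ⟨_, rfl⟩
  rw [← hf] at hk
  have hk' : Fintype.card (𝓞 F ⧸ P) = p ^ f := by rw [← Nat.card_eq_fintype_card, hk]
  have hmk : ∀ x : 𝓞 F, Ideal.Quotient.mk P (φ • x) = (Ideal.Quotient.mk P x) ^ p := by
    intro x
    rw [← map_pow]
    exact Ideal.Quotient.eq.2 (hφ x)
  have hroots : ∀ n : ℕ, 1 < n → (∀ y : 𝓞 F ⧸ P, y ^ n = y) → p ^ f ≤ n := by
    intro n hn hy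
    have h1 : (Polynomial.X ^ n - Polynomial.X : Polynomial (𝓞 F ⧸ P)) ≠ 0 :=
      FiniteField.X_pow_card_sub_X_ne_zero _ hn
    have h2 : (Finset.univ : Finset (𝓞 F ⧸ P)).card ≤ (Polynomial.X ^ n - Polynomial.X : Polynomial (𝓞 F ⧸ P)).natDegree := by
      refine Polynomial.card_le_degree_of_subset_roots ?_
      intro y _
      rw [Polynomial.mem_roots h1, Polynomial.IsRoot.def, Polynomial.eval_sub, Polynomial.eval_pow,
        Polynomial.eval_X, hy, sub_self]
    rw [FiniteField.X_pow_card_sub_X_natDegree_eq _ hn, Finset.card_univ, hk'] at h2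
    exact h2
  have hp1 := hpf.out.one_lt
  have hf1 : f ≤ 2 := by
    have h1 : p ^ f ≤ p ^ 2 := by
      refine hroots (p ^ 2) (Nat.one_lt_pow two_ne_zero hp1) fun y => ?_
      obtain ⟨x, rfl⟩ := Ideal.Quotient.mk_surjective y
      rw [pow_two, pow_mul, ← hmk, ← hmk, ← mul_smul, h.sq_one, one_smul]
    exact (Nat.pow_le_pow_iff_right hp1).1 h1
  have hf0 : f ≠ 0 := by
    rintro rfl
    rw [pow_zero] at hk'
    have : 1 < Fintype.card (𝓞 F ⧸ P) := Fintype.one_lt_card
    omega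
  have e := h.frob_iff hG hφ
  rw [← hf]
  unfold ff
  by_cases hin : ∀ x : 𝓞 F, φ • x - x ∈ P
  · rw [if_pos (e.1 hin)]
    have h1 : p ^ f ≤ p ^ 1 := by
      rw [pow_one]
      refine hroots p hp1 fun y => ?_
      obtain ⟨x, rfl⟩ := Ideal.Quotient.mk_surjective y
      rw [← hmk]
      exact Ideal.Quotient.eq.2 (hin x)
    have := (Nat.pow_le_pow_iff_right hp1).1 h1
    omega
  · rw [if_neg (fun h' => hin (e.2 h'))]
    by_contra hne
    apply hin
    have hf2 : f = 1 := by omega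
    intro x
    rw [← Ideal.Quotient.eq, hmk]
    have := FiniteField.pow_card (Ideal.Quotient.mk P x)
    rwa [hk', hf2, pow_one] at this

omit hP hl in
/-- the number of the places -/
theorem MQ.card_places (h : MQ F H r) (hG : IsGalois ℚ F) (P : Ideal (𝓞 F)) [hP : P.IsPrime]
    [hl : P.LiesOver (Ideal.span {(p : ℤ)})] :
    ((Ideal.span {(p : ℤ)}).primesOver (𝓞 F)).ncard * ee H p * ff H p = H.card := by
  have hpmax : (Ideal.span {(p : ℤ)}).IsMaximal := Int.ideal_span_isMaximal_of_prime p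
  have h1 := Ideal.ncard_primesOver_mul_card_inertia_mul_finrank (G := Gal(F/ℚ)) (Ideal.span {(p : ℤ)}) P
  rw [h.card_inertia hG (P := P) (p := p), h.card_res hG (P := P) (p := p),
    IsGalois.card_aut_eq_finrank, h.finrank_eq] at h1
  exact h1

end prime

/-- the roots prime to `p` -/
theorem MQ.card_split (h : MQ F H r) (p : ℕ) :
    (H.filter fun T => p ∉ T).card * ee H p = H.card := by
  classical
  unfold ee
  split_ifs with h0
  · obtain ⟨T0, hT0, h0⟩ := h0
    have h1 : (H.filter fun T => p ∉ T).card = (H.filter fun T => ¬ p ∉ T).card := by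
      refine Finset.card_bij' (fun T _ => symmDiff T T0) (fun T _ => symmDiff T T0) ?_ ?_ ?_ ?_
      · intro T hT
        rw [Finset.mem_filter] at hT ⊢
        refine ⟨h.sd T hT.1 T0 hT0, ?_⟩
        rw [Finset.mem_symmDiff]
        tauto
      · intro T hT
        rw [Finset.mem_filter] at hT ⊢
        refine ⟨h.sd T hT.1 T0 hT0, ?_⟩
        rw [Finset.mem_symmDiff]
        tauto
      · intro T _
        exact symmDiff_symmDiff_cancel_right T0 T
      · intro T _
        exact symmDiff_symmDiff_cancel_right T0 T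
    have h2 := Finset.card_filter_add_card_filter_not (s := H) (fun T => p ∉ T)
    omega
  · push Not at h0
    rw [mul_one, Finset.filter_true_of_mem h0]

end

end Run7.h428.NF
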