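import Pool.Agent.Run7.h555.P15.Ap
import Pool.Agent.Run7.h359.Ivr

/-!
# Project NF15: the twists of `X_0(15)` over multiquadratic fields

Statements of the parts. `WT D` is the quadratic twist by `D = 1` modulo `4` of `X_0(15)` (global minimal
equation over the integers, `Run7/h555/P15/Ap`), `aV W v` and `eV W v` are the coefficients of the
Euler factor `1 - aV T + eV T ^ 2` at `v` of the L-series of Mathlib (`Pool/Agent/W189/NF/LSer`).
-/

set_option autoImplicit false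
set_option linter.unusedVariables false

namespace Run7.h428.NF

open NumberField IsDedekindDomain WeierstrassCurve
open Pool.Agent.W97.MT (ap)
open Pool.Agent.W189.NF (aV eV aLoc eLoc)
open Pool.Agent.H921R2.TatePole (below deg nm)
open Pool.Agent.H82R3.EK (luc)
open Pool.Agent.Y698 (AP)
open Run7.h555.P15 (WT)

/-- the twist by `D` over the field `F` -/
noncomputable abbrev EF (F : Type) [Field F] (D : ℤ) : WeierstrassCurve F :=
  (WT D).map (Int.castRingHom F)

/-- `F` is generated by the square roots `r T` of the products `= 1, 49` modulo `60` of the elements of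
the sets of primes `T ∈ H`, and `H` is closed under symmetric differences. -/
structure MQ (F : Type) [Field F] [NumberField F] (H : Finset (Finset ℕ)) (r : Finset ℕ → F) :
    Prop where
  pr : ∀ T ∈ H, ∀ l ∈ T, l.Prime
  m60 : ∀ T ∈ H, (∏ l ∈ T, l) % 60 = 1 ∨ (∏ l ∈ T, l) % 60 = 49
  emp : ∅ ∈ H
  sd : ∀ T ∈ H, ∀ T' ∈ H, symmDiff T T' ∈ H
  sq : ∀ T ∈ H, r T ^ 2 = ((∏ l ∈ T, l : ℕ) : F)
  gen : ∀ K : Subfield F, (∀ T ∈ H, r T ∈ K) → K = ⊤

/-- the squarefree part of `n * ∏ T` -/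
def tn (n : ℕ) (T : Finset ℕ) : ℕ := ∏ p ∈ symmDiff n.primeFactors T, p

/-- **MUL** (nonsplit multiplicative reduction). `W₀` over a discrete valuation ring `R` with residue
characteristic not `2`, `Δ` not a unit, `c₄` a unit, `-c₄ c₆` not a square in the residue field. Then the
local polynomial of Mathlib is `1 + T`.

Proof. Put `W = W₀.map (algebraMap R L)`, `W.minimal R = C • W`, `u = C.u⁻¹`; `Δ(C • W) = u ^ 12 Δ(W)`,
`c₄(C • W) = u ^ 4 c₄(W)`, `c₆(C • W) = u ^ 6 c₆(W)`. The minimal model is integral, so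
`v (u ^ 4 c₄) ≤ 1`, so `v u ≤ 1`; `W` is integral, so `v Δ(W) ≤ v (u ^ 12 Δ(W))` by minimality (as in
`Run7.h359.FE.min_good'`), so `1 ≤ v u`; hence `v u = 1`. So the minimal model `W'` has multiplicative
reduction and not good reduction. Let `I` be its integral model. If the reduction is split, the
polynomial `c₄ X ^ 2 + a₁ c₄ X - (54 b₆ - 3 b₂ b₄ + a₂ c₄)` over the residue field `k` splits, so its
discriminant `a₁ ^ 2 c₄ ^ 2 + 4 c₄ (54 b₆ - 3 b₂ b₄ + a₂ c₄) = - c₄ c₆` (identity of polynomials in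
the `aᵢ`: `b₂ c₄ + 216 b₆ - 12 b₂ b₄ = - c₆`) is a square in `k`; but `-c₄(I) c₆(I) = w ^ 10 (-c₄(W₀) c₆(W₀))`
with `w` the unit of `R` mapping to `u`: contradiction. -/
def S_MUL : Prop := ∀ (R : Type) [CommRing R] [IsDomain R] [IsDiscreteValuationRing R] (L : Type)
  [Field L] [Algebra R L] [IsFractionRing R L] (W₀ : WeierstrassCurve R),
  (2 : IsLocalRing.ResidueField R) ≠ 0 → ¬ IsUnit W₀.Δ → W₀.Δ ≠ 0 → IsUnit W₀.c₄ →
  ¬ IsSquare (IsLocalRing.residue R (-(W₀.c₄ * W₀.c₆))) →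
  aLoc R (W₀.map (algebraMap R L)) = -1 ∧ eLoc R (W₀.map (algebraMap R L)) = 0

/-- **M15**: the places of degree one above `3` and `5`.

Proof. Apply `S_MUL` to `R = v.adicCompletionIntegers F`, `W₀ = (WT D).map (Int.castRingHom R)`. We have
`c₄(WT D) = 481 D ^ 2`, `c₆(WT D) = 4879 D ^ 3`, `Δ(WT D) = 15 ^ 4 D ^ 6` for `D = 1` modulo `4`
(`Run7.h555.P15.coeffs`). For `D = -n` one has `D = 1` modulo `3` and `D = 2, 3` modulo `5`; in the
residue field (with `p` elements, `Pool.Agent.W189.NF.card_res`, so isomorphic to `ZMod p`)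
`-c₄ c₆ = 2` for `p = 3` and `= D ∈ {2, 3}` for `p = 5`, not squares. The passage from `v` to the residue
field as in `Pool/Agent/Y698/SG/Az.lean` (`coeffsD`). -/
def S_M15 : Prop := S_MUL → ∀ (F : Type) [Field F] [NumberField F] (v : HeightOneSpectrum (𝓞 F))
  (n : ℕ), (n % 60 = 23 ∨ n % 60 = 47) → ((below v : ℕ) = 3 ∨ (below v : ℕ) = 5) → deg v = 1 →
  aV (EF F (-(n : ℤ))) v = -1 ∧ eV (EF F (-(n : ℤ))) v = 0

/-- **CNT**: the points over a finite field with `p` or `p ^ 2` elements.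

Proof. `f = 1`: `k` is isomorphic to `ZMod p`. `f = 2`, `p` odd (so `p ≥ 7`): as `pts_cubic` the points
are those of `y ^ 2 = x (x - 9 D) (x - 25 D)`, the cubic is `(X - C 0) (X ^ 2 + C A X + C B)` with
`A = -34 D`, `B = 225 D ^ 2`, and `W165.CE.A_two_split`, `W165.CE.T_luc` (as in
`Run7/h691/MI/Pts.lean`, `ct_ext`) give the recursion. `p = 2`, `f = 2`: the equation is
`y ^ 2 + x y + y = x ^ 3 + a x ^ 2 + b x + c` with `(a, b, c) = (1, 0, 0)` if `D = 1` modulo `8`, and `(0, 0, 1)` if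
`D = 5` modulo `8` (see the end of `Run7/h555/P15/Ap.lean`), over a field with four elements: seven points (`k` is
isomorphic to a field with decidable operations, or: the four elements are `0, 1, w, w + 1` with
`w ^ 2 = w + 1`), `luc (-1) 2 2 = luc 1 2 2 = -3`. -/
def S_CNT : Prop := ∀ (k : Type) [Field k] [Finite k] (p f : ℕ) (D : ℤ), p.Prime →
  Nat.card k = p ^ f → 1 ≤ f → f ≤ 2 → D % 4 = 1 → ¬ (p : ℤ) ∣ 15 * D →
  (Nat.card k : ℤ) - Nat.card (AP ((WT D).map (Int.castRingHom k))) = luc (ap (WT D) p) p f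

/-- **GOOD**: the places of good reduction, for all the curves isomorphic over `F` to the twist by `D`.

Proof. `Run7.h359.FE.min_count'` with `W₀ = (WT D).map (Int.castRingHom (Ov v))`, whose discriminant
`15 ^ 4 D ^ 6` is a unit, and `S_CNT` for the residue field (`Nat.card = (below v) ^ deg v`,
`Pool.Agent.W189.NF.card_res`, `Pool.Agent.H921R2.TatePole.nm_eq`). As in the third case of `coeffsD` in
`Pool/Agent/Y698/SG/Az.lean` and in `loc_inv` of `Run7/h359/Ivr.lean` (map of the change of variables to the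
completion). -/
def S_GOOD : Prop := S_CNT → ∀ (F : Type) [Field F] [NumberField F] (v : HeightOneSpectrum (𝓞 F))
  (D : ℤ) (W : WeierstrassCurve F) (C : VariableChange F), D % 4 = 1 →
  ¬ (((below v : ℕ) : ℤ)) ∣ 15 * D → deg v ≤ 2 → C • W = EF F D →
  aV W v = luc (ap (WT D) (below v)) (below v : ℕ) (deg v) ∧ eV W v = ((below v : ℕ) : ℤ) ^ deg v

/-- **ADD**: the unramified places with additive reduction.

Proof. `Δ(WT D) = 15 ^ 4 D ^ 6`, `c₄ = 481 D ^ 2`, so `c₄ ^ 3 = j Δ` with `j = 481 ^ 3 / 15 ^ 4`, integral at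
`v`, and `v Δ = exp (-6)`: `Pool.Agent.Y698.min_add'` with `m = 6`, as in the second case of `coeffsD` in
`Pool/Agent/Y698/SG/Az.lean`. -/
def S_ADD : Prop := ∀ (F : Type) [Field F] [NumberField F] (v : HeightOneSpectrum (𝓞 F)) (D : ℤ),
  D % 4 = 1 → ((below v : ℕ) : ℤ) ∣ D → ¬ (((below v : ℕ) : ℤ) ^ 2) ∣ D → (below v : ℕ) ≠ 3 →
  (below v : ℕ) ≠ 5 → v.valuation F ((below v : ℕ) : F) = WithZero.exp (-1 : ℤ) →
  aV (EF F D) v = 0 ∧ eV (EF F D) v = 0

/-- **ISO**: the twists by numbers in the same square class are isomorphic.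

Proof. Write down the change of variables, from `y ^ 2 = x (x - 9 D) (x - 25 D)` with
`x = 4 X + 13 D`, `y = 4 (2 Y + X + 1)` (`pts_cubic`) and `(x, y) ↦ (x D' / D, y (z / D) (D' / D))`; as `cur_iso` in
`Run7/h359/Ivr.lean`. -/
def S_ISO : Prop := ∀ (F : Type) [Field F] [CharZero F] (D D' : ℤ) (z : F), D % 4 = 1 →
  D' % 4 = 1 → z ^ 2 = ((D * D' : ℤ) : F) → ∃ C : VariableChange F, C • EF F D = EF F D'

/-- **RK**: the points over `F` of the twist by `-n` are finite, if those over `ℚ` of all the twists are.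

Proof. Port of `Pool/Agent/Run7/h401/MQ/Rk.lean` (`MQ.fin`; 300 lines) from the curve
`y ^ 2 = x ^ 3 + 21 D x ^ 2 + 112 D ^ 2 x` to `y ^ 2 = x ^ 3 + 34 n x ^ 2 + 225 n ^ 2 x`: for a point `P` over `F`,
`[F : ℚ] P` is the sum over `T ∈ H` of the `σ`-isotypic parts, and these come from the
points of the twists by `-n ∏ T`, which is `-(tn n T)` up to a square. The Galois theory of
`F` (`isGalois`, `sgn`, `eq_one`, `inj`, `finrank_eq`) is in `Run7/h428/NF/Fld.lean` (port of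
`Run7/h401/MQ/Fld.lean`, same names). -/
def S_RK : Prop := ∀ (F : Type) [Field F] [NumberField F] (H : Finset (Finset ℕ))
  (r : Finset ℕ → F), MQ F H r → ∀ n : ℕ, Squarefree n → (n % 60 = 23 ∨ n % 60 = 47) →
  (∀ T ∈ H, Finite (⟨0, ((34 * (tn n T : ℤ) : ℤ) : ℚ), 0, ((225 * (tn n T : ℤ) ^ 2 : ℤ) : ℚ), 0⟩ :
    WeierstrassCurve ℚ).toAffine.Point) → Finite (EF F (-(n : ℤ))).toAffine.Point

/-- the Euler factor at `v` of the L-series of Mathlib -/
noncomputable def LF {F : Type} [Field F] [NumberField F] (W : WeierstrassCurve F) (s : ℂ)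
    (v : HeightOneSpectrum (𝓞 F)) : ℂ :=
  (1 - (aV W v : ℂ) * (nm v : ℂ) ^ (-s) + (eV W v : ℂ) * ((nm v : ℂ) ^ (-s)) ^ 2)⁻¹

/-- the Euler factor at `p` over `ℚ` -/
noncomputable def eul (D : ℤ) (s : ℂ) (p : ℕ) : ℂ :=
  (1 - (ap (WT D) p : ℂ) * (p : ℂ) ^ (-s) +
    if (p : ℤ) ∣ 15 * D then 0 else (p : ℂ) ^ (1 - 2 * s))⁻¹

/-- **PP**: the product over the places above a prime (helper428). -/
def S_PP : Prop := S_M15 → S_GOOD → S_ADD → S_ISO → S_MUL → S_CNT →
  ∀ (F : Type) [Field F] [NumberField F] (H : Finset (Finset ℕ)) (r : Finset ℕ → F), MQ F H r →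
  ∀ n : ℕ, Squarefree n → (n % 60 = 23 ∨ n % 60 = 47) → ∀ (s : ℂ) (q : Nat.Primes),
  ∏ᶠ v : {v : HeightOneSpectrum (𝓞 F) // below v = q}, LF (EF F (-(n : ℤ))) s v.1 =
    ∏ T ∈ H, eul (-(tn n T : ℤ)) s q

end Run7.h428.NF
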